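import Pool.Agent.H83.LS.Targets3
import Pool.Agent.H83.LS.Basic

/-! # ASY: oscillation of `j_m` at infinity (helper76), for `Pool.Agent.H83.LS` -/

set_option autoImplicit false

open MeasureTheory Set Filter Topology

namespace Pool.Agent.H76.LS

open Pool.Agent.H83.LS

/-- amplitudes -/
def Cl (G : ℝ → ℂ) : Prop := ContDiff ℝ (⊤ : ℕ∞) G ∧ ∀ t ≤ -(1 / 2 : ℝ), G t = 0

/-- the oscillating integral -/
noncomputable def bb (n : ℕ) (G : ℝ → ℂ) (y : ℝ) : ℂ :=
  ∫ φ in (0 : ℝ)..Real.pi, e (-(y * (1 - Real.cos φ))) * (G (Real.cos φ) * (Real.sin φ : ℂ) ^ n)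

theorem hasDerivAt_e (x : ℝ) : HasDerivAt e (2 * Real.pi * Complex.I * e x) x := by
  unfold e
  have h1 : HasDerivAt (fun x : ℝ => ((2 * Real.pi * x : ℝ) : ℂ) * Complex.I)
      ((2 * Real.pi : ℝ) * Complex.I) x := by
    have h0 : HasDerivAt (fun x : ℝ => (2 * Real.pi * x : ℝ)) (2 * Real.pi) x := by
      simpa using (hasDerivAt_id x).const_mul (2 * Real.pi)
    exact (h0.ofReal_comp).mul_const Complex.I
  have h2 := h1.cexp
  convert h2 using 1
  push_cast
  ring

theorem Cl.div {G : ℝ → ℂ} (hG : Cl G) : Cl (fun t => G t / (1 + t : ℂ)) := by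
  refine ⟨?_, fun t ht => by simp [hG.2 t ht]⟩
  rw [contDiff_iff_contDiffAt]
  intro t
  by_cases ht : -1 < t
  · have h1 : ContDiffAt ℝ (⊤ : ℕ∞) (fun t : ℝ => (1 + t : ℂ)) t :=
      contDiffAt_const.add (Complex.ofRealCLM.contDiff.contDiffAt)
    have h2 : (1 + t : ℂ) ≠ 0 := by
      have : (1 + t : ℝ) ≠ 0 := by linarith
      exact_mod_cast this
    simp_rw [div_eq_mul_inv]
    exact hG.1.contDiffAt.mul (h1.inv h2)
  · have h2 : (fun t : ℝ => G t / (1 + t : ℂ)) =ᶠ[𝓝 t] fun _ => 0 := by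
      filter_upwards [Iio_mem_nhds (show t < -(1 / 2 : ℝ) by push Not at ht; linarith)] with s hs
      rw [hG.2 s (le_of_lt hs), zero_div]
    exact contDiffAt_const.congr_of_eventuallyEq h2

theorem Cl.deriv {G : ℝ → ℂ} (hG : Cl G) : Cl (deriv G) := by
  refine ⟨?_, ?_⟩
  · exact (contDiff_infty_iff_deriv.1 hG.1).2
  · -- the derivative is continuous and vanishes to the left
    have hc : Continuous (_root_.deriv G) := (contDiff_infty_iff_deriv.1 hG.1).2.continuous
    have h1 : ∀ t < -(1 / 2 : ℝ), _root_.deriv G t = 0 := by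
      intro t ht
      have h2 : G =ᶠ[𝓝 t] fun _ => 0 := by
        filter_upwards [Iio_mem_nhds ht] with s hs
        exact hG.2 s (le_of_lt hs)
      rw [h2.deriv_eq]; simp
    intro t ht
    rcases ht.lt_or_eq with h | h
    · exact h1 t h
    · rw [h]
      have h3 : Tendsto (_root_.deriv G) (𝓝[<] (-(1 / 2 : ℝ))) (𝓝 (_root_.deriv G (-(1 / 2)))) :=
        hc.continuousAt.tendsto.mono_left nhdsWithin_le_nhds
      have h4 : Tendsto (_root_.deriv G) (𝓝[<] (-(1 / 2 : ℝ))) (𝓝 0) := by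
        apply tendsto_const_nhds.congr'
        filter_upwards [self_mem_nhdsWithin] with s hs
        exact (h1 s hs).symm
      exact tendsto_nhds_unique h3 h4

theorem Cl.mul {G : ℝ → ℂ} (hG : Cl G) {f : ℝ → ℂ} (hf : ContDiff ℝ (⊤ : ℕ∞) f) :
    Cl (fun t => f t * G t) :=
  ⟨hf.mul hG.1, fun t ht => by show f t * G t = 0; rw [hG.2 t ht, mul_zero]⟩

theorem Cl.add {G H : ℝ → ℂ} (hG : Cl G) (hH : Cl H) : Cl (fun t => G t + H t) :=
  ⟨hG.1.add hH.1, fun t ht => by show G t + H t = 0; rw [hG.2 t ht, hH.2 t ht, add_zero]⟩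

theorem Cl.sub {G H : ℝ → ℂ} (hG : Cl G) (hH : Cl H) : Cl (fun t => G t - H t) :=
  ⟨hG.1.sub hH.1, fun t ht => by show G t - H t = 0; rw [hG.2 t ht, hH.2 t ht, sub_zero]⟩

theorem contDiff_ofReal : ContDiff ℝ (⊤ : ℕ∞) (fun t : ℝ => (t : ℂ)) := Complex.ofRealCLM.contDiff

/-- the operator realising `y d/dy` -/
noncomputable def Tt (n : ℕ) (G : ℝ → ℂ) (t : ℝ) : ℂ :=
  (1 - (t : ℂ) ^ 2) * deriv (fun t : ℝ => G t / (1 + t : ℂ)) t -
    ((n + 1 : ℕ) * (t : ℂ)) * (G t / (1 + t : ℂ))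

theorem Cl.Tt {n : ℕ} {G : ℝ → ℂ} (hG : Cl G) : Cl (Tt n G) := by
  have h1 : ContDiff ℝ (⊤ : ℕ∞) (fun t : ℝ => (1 - (t : ℂ) ^ 2)) :=
    contDiff_const.sub (contDiff_ofReal.pow 2)
  have h2 : ContDiff ℝ (⊤ : ℕ∞) (fun t : ℝ => ((n + 1 : ℕ) * (t : ℂ))) :=
    contDiff_const.mul contDiff_ofReal
  exact (hG.div.deriv.mul h1).sub (hG.div.mul h2)

theorem cont_integrand (n : ℕ) {G : ℝ → ℂ} (hG : Continuous G) (y : ℝ) :
    Continuous (fun φ : ℝ => e (-(y * (1 - Real.cos φ))) *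
      (G (Real.cos φ) * (Real.sin φ : ℂ) ^ n)) := by
  have h1 : Continuous (fun φ : ℝ => e (-(y * (1 - Real.cos φ)))) :=
    continuous_e.comp (by fun_prop)
  have h2 : Continuous (fun φ : ℝ => G (Real.cos φ)) := hG.comp Real.continuous_cos
  have h3 : Continuous (fun φ : ℝ => (Real.sin φ : ℂ) ^ n) :=
    (Complex.continuous_ofReal.comp Real.continuous_sin).pow n
  exact h1.mul (h2.mul h3)

/-- derivative with respect to the phase variable -/
theorem hasDerivAt_phase (y φ : ℝ) : HasDerivAt (fun φ : ℝ => e (-(y * (1 - Real.cos φ))))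
    (-(2 * Real.pi * Complex.I * y * Real.sin φ) * e (-(y * (1 - Real.cos φ)))) φ := by
  have h1 : HasDerivAt (fun φ : ℝ => -(y * (1 - Real.cos φ))) (-(y * Real.sin φ)) φ := by
    have h0 : HasDerivAt (fun φ : ℝ => -(y * (1 - Real.cos φ))) _ φ :=
      ((((Real.hasDerivAt_cos φ).const_sub 1).const_mul y)).neg
    exact h0.congr_deriv (by ring)
  have h2' := (hasDerivAt_e (-(y * (1 - Real.cos φ)))).scomp φ h1
  have h2 : HasDerivAt (fun φ : ℝ => e (-(y * (1 - Real.cos φ)))) _ φ := h2'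
  refine h2.congr_deriv ?_
  rw [Complex.real_smul]
  push_cast
  ring

theorem hasDerivAt_amp (n : ℕ) {G : ℝ → ℂ} (hG : ContDiff ℝ (⊤ : ℕ∞) G) (φ : ℝ) :
    HasDerivAt (fun φ : ℝ => G (Real.cos φ) * (Real.sin φ : ℂ) ^ (n + 1))
      (-(deriv G (Real.cos φ)) * (Real.sin φ : ℂ) ^ (n + 2) +
        (n + 1 : ℕ) * (Real.cos φ : ℂ) * G (Real.cos φ) * (Real.sin φ : ℂ) ^ n) φ := by
  have hd : HasDerivAt G (deriv G (Real.cos φ)) (Real.cos φ) :=
    (hG.differentiable (by simp)).differentiableAt.hasDerivAt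
  have h1 := hd.scomp φ (Real.hasDerivAt_cos φ)
  have h2 : HasDerivAt (fun φ : ℝ => (Real.sin φ : ℂ)) (Real.cos φ : ℂ) φ :=
    (Real.hasDerivAt_sin φ).ofReal_comp
  have h3 := h2.pow (n + 1)
  have h4 : HasDerivAt (fun φ : ℝ => G (Real.cos φ) * (Real.sin φ : ℂ) ^ (n + 1)) _ φ := h1.mul h3
  refine h4.congr_deriv ?_
  rw [Complex.real_smul]
  simp only [Function.comp, Nat.add_sub_cancel]
  push_cast
  ring

theorem e_neg_cos_pi (G : ℝ → ℂ) (hG : Cl G) : G (Real.cos Real.pi) = 0 := by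
  rw [Real.cos_pi]; exact hG.2 _ (by norm_num)

/-- the derivative in `y` -/
theorem hasDerivAt_bb (n : ℕ) {G : ℝ → ℂ} (hG : Cl G) (y : ℝ) :
    HasDerivAt (bb n G) (-(2 * Real.pi * Complex.I) *
      bb n (fun t => (1 - (t : ℂ)) * G t) y) y := by
  have hcos : ∀ φ : ℝ, |1 - Real.cos φ| ≤ 2 := fun φ => by
    rw [abs_le]; constructor <;> linarith [Real.neg_one_le_cos φ, Real.cos_le_one φ]
  obtain ⟨M, hM⟩ := (isCompact_Icc (a := (-1 : ℝ)) (b := 1)).exists_bound_of_continuousOn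
    hG.1.continuous.continuousOn
  have hGc : Continuous (fun t : ℝ => (1 - (t : ℂ)) * G t) :=
    (continuous_const.sub Complex.continuous_ofReal).mul hG.1.continuous
  have key := intervalIntegral.hasDerivAt_integral_of_dominated_loc_of_deriv_le
    (μ := volume) (a := 0) (b := Real.pi) (x₀ := y) (s := Set.univ)
    (F := fun y φ => e (-(y * (1 - Real.cos φ))) * (G (Real.cos φ) * (Real.sin φ : ℂ) ^ n))
    (F' := fun y φ => -(2 * Real.pi * Complex.I * ((1 - Real.cos φ : ℝ) : ℂ)) *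
      e (-(y * (1 - Real.cos φ))) * (G (Real.cos φ) * (Real.sin φ : ℂ) ^ n))
    (bound := fun _ => 2 * Real.pi * 2 * M) (Filter.univ_mem) ?_ ?_ ?_ ?_ ?_ ?_
  · have h2 : HasDerivAt (bb n G) _ y := key.2
    refine h2.congr_deriv ?_
    unfold bb
    rw [← intervalIntegral.integral_const_mul]
    apply intervalIntegral.integral_congr
    intro φ _
    simp only
    push_cast
    ring
  · exact Filter.Eventually.of_forall (fun y' =>
      (cont_integrand n hG.1.continuous y').aestronglyMeasurable)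
  · exact (cont_integrand n hG.1.continuous y).intervalIntegrable _ _
  · apply Continuous.aestronglyMeasurable
    have h1 : Continuous (fun φ : ℝ => e (-(y * (1 - Real.cos φ)))) :=
      continuous_e.comp (by fun_prop)
    have h2 : Continuous (fun φ : ℝ => G (Real.cos φ)) := hG.1.continuous.comp Real.continuous_cos
    have h3 : Continuous (fun φ : ℝ => (Real.sin φ : ℂ) ^ n) :=
      (Complex.continuous_ofReal.comp Real.continuous_sin).pow n
    have h4 : Continuous (fun φ : ℝ => ((1 - Real.cos φ : ℝ) : ℂ)) :=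
      Complex.continuous_ofReal.comp (by fun_prop)
    exact (((continuous_const.mul h4).neg).mul h1).mul (h2.mul h3)
  · apply Filter.Eventually.of_forall
    intro φ _ y' _
    rw [norm_mul, norm_mul, norm_neg, norm_mul, norm_mul, norm_mul, norm_mul, norm_pow, norm_e,
      Complex.norm_I, Complex.norm_real, Complex.norm_real, Complex.norm_real, Real.norm_eq_abs,
      Real.norm_eq_abs, Real.norm_eq_abs, abs_of_pos Real.pi_pos]
    have h1 := hM (Real.cos φ) ⟨Real.neg_one_le_cos φ, Real.cos_le_one φ⟩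
    have h2 := hcos φ
    have h3 : |Real.sin φ| ^ n ≤ 1 := pow_le_one₀ (abs_nonneg _) (Real.abs_sin_le_one φ)
    have h0 : 0 ≤ M := (norm_nonneg _).trans h1
    have h4 : ‖G (Real.cos φ)‖ * |Real.sin φ| ^ n ≤ M * 1 :=
      mul_le_mul h1 h3 (by positivity) h0
    have h5 : ‖(2 : ℂ)‖ = 2 := by simp
    rw [h5]
    calc 2 * Real.pi * 1 * |1 - Real.cos φ| * 1 * (‖G (Real.cos φ)‖ * |Real.sin φ| ^ n)
        ≤ 2 * Real.pi * 1 * 2 * 1 * (M * 1) := by
          apply mul_le_mul _ h4 (by positivity) (by positivity)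
          have := Real.pi_pos
          nlinarith
      _ = 2 * Real.pi * 2 * M := by ring
  · exact intervalIntegrable_const
  · apply Filter.Eventually.of_forall
    intro φ _ y' _
    have h1 : HasDerivAt (fun y : ℝ => -(y * (1 - Real.cos φ))) (-(1 - Real.cos φ)) y' := by
      have h0 : HasDerivAt (fun y : ℝ => -(y * (1 - Real.cos φ))) _ y' :=
        ((hasDerivAt_id' y').mul_const (1 - Real.cos φ)).neg
      exact h0.congr_deriv (by ring)
    have h2' := (hasDerivAt_e (-(y' * (1 - Real.cos φ)))).scomp y' h1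
    have h2 : HasDerivAt (fun y : ℝ => e (-(y * (1 - Real.cos φ)))) _ y' := h2'
    have h3 := h2.mul_const (G (Real.cos φ) * (Real.sin φ : ℂ) ^ n)
    refine h3.congr_deriv ?_
    rw [Complex.real_smul]
    push_cast
    ring

theorem bb_step (n : ℕ) {G : ℝ → ℂ} (hG : Cl G) (y : ℝ) :
    (y : ℂ) * (-(2 * Real.pi * Complex.I) * bb n (fun t => (1 - (t : ℂ)) * G t) y) =
      bb n (Tt n G) y := by
  obtain ⟨G1, hG1⟩ : ∃ G1 : ℝ → ℂ, G1 = fun t : ℝ => G t / (1 + t : ℂ) := ⟨_, rfl⟩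
  have hCl : Cl G1 := by rw [hG1]; exact hG.div
  have hmul : ∀ t : ℝ, G1 t * (1 + t : ℂ) = G t := by
    intro t
    rw [hG1]
    by_cases h : (1 + t : ℂ) = 0
    · have h1 : (1 + t : ℝ) = 0 := by exact_mod_cast h
      simp only [h, mul_zero]
      exact (hG.2 t (by linarith)).symm
    · simp only; field_simp
  have hd : ∀ φ : ℝ, HasDerivAt (fun φ : ℝ => e (-(y * (1 - Real.cos φ))) *
      (G1 (Real.cos φ) * (Real.sin φ : ℂ) ^ (n + 1)))
      (e (-(y * (1 - Real.cos φ))) * ((-(2 * Real.pi * Complex.I) * y * ((1 - (Real.cos φ : ℂ)) *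
        G (Real.cos φ)) - Tt n G (Real.cos φ)) * (Real.sin φ : ℂ) ^ n)) φ := by
    intro φ
    have h := (hasDerivAt_phase y φ).mul (hasDerivAt_amp n hCl.1 φ)
    have h' : HasDerivAt (fun φ : ℝ => e (-(y * (1 - Real.cos φ))) *
      (G1 (Real.cos φ) * (Real.sin φ : ℂ) ^ (n + 1))) _ φ := h
    refine h'.congr_deriv ?_
    have hs : (Real.sin φ : ℂ) ^ 2 = (1 - (Real.cos φ : ℂ)) * (1 + (Real.cos φ : ℂ)) := by
      have := Real.sin_sq_add_cos_sq φ
      have h3 : (Real.sin φ) ^ 2 = (1 - Real.cos φ) * (1 + Real.cos φ) := by linarith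
      exact_mod_cast h3
    have e1 : (Real.sin φ : ℂ) ^ (n + 2) = (Real.sin φ : ℂ) ^ n *
        ((1 - (Real.cos φ : ℂ)) * (1 + (Real.cos φ : ℂ))) := by rw [pow_add, hs]
    have e2 : (Real.sin φ : ℂ) * (Real.sin φ : ℂ) ^ (n + 1) = (Real.sin φ : ℂ) ^ n *
        ((1 - (Real.cos φ : ℂ)) * (1 + (Real.cos φ : ℂ))) := by rw [← e1]; ring
    rw [← hmul (Real.cos φ)]
    unfold Tt
    rw [← hG1]
    have e3 : G (Real.cos φ) / (1 + (Real.cos φ : ℂ)) = G1 (Real.cos φ) := by rw [hG1]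
    rw [e3]
    calc _ = -(2 * Real.pi * Complex.I * y) * e (-(y * (1 - Real.cos φ))) * G1 (Real.cos φ) *
            ((Real.sin φ : ℂ) * (Real.sin φ : ℂ) ^ (n + 1)) +
          e (-(y * (1 - Real.cos φ))) * (-(deriv G1 (Real.cos φ)) * (Real.sin φ : ℂ) ^ (n + 2) +
            (n + 1 : ℕ) * (Real.cos φ : ℂ) * G1 (Real.cos φ) * (Real.sin φ : ℂ) ^ n) := by ring
      _ = _ := by rw [e1, e2]; ring
  have hcont1 : Continuous (fun φ : ℝ => e (-(y * (1 - Real.cos φ))) *
      ((-(2 * Real.pi * Complex.I) * y * ((1 - (Real.cos φ : ℂ)) * G (Real.cos φ)) -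
        Tt n G (Real.cos φ)) * (Real.sin φ : ℂ) ^ n)) := by
    have hc : Continuous (fun t : ℝ => -(2 * Real.pi * Complex.I) * y * ((1 - (t : ℂ)) * G t) -
        Tt n G t) :=
      (continuous_const.mul ((continuous_const.sub Complex.continuous_ofReal).mul
        hG.1.continuous)).sub hG.Tt.1.continuous
    exact cont_integrand n hc y
  have hFTC := intervalIntegral.integral_eq_sub_of_hasDerivAt (a := 0) (b := Real.pi)
    (fun φ _ => hd φ) (hcont1.intervalIntegrable _ _)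
  simp only [Real.sin_pi, Real.sin_zero, Complex.ofReal_zero, zero_pow (Nat.succ_ne_zero n),
    mul_zero, sub_zero] at hFTC
  have hc1 : Continuous (fun t : ℝ => (1 - (t : ℂ)) * G t) :=
    (continuous_const.sub Complex.continuous_ofReal).mul hG.1.continuous
  have i1 := (cont_integrand n hc1 y).intervalIntegrable (μ := volume) 0 Real.pi
  have i2 := (cont_integrand n (hG.Tt (n := n)).1.continuous y).intervalIntegrable (μ := volume) 0 Real.pi
  have hsplit : ∫ φ in (0 : ℝ)..Real.pi, e (-(y * (1 - Real.cos φ))) *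
      ((-(2 * Real.pi * Complex.I) * y * ((1 - (Real.cos φ : ℂ)) * G (Real.cos φ)) -
        Tt n G (Real.cos φ)) * (Real.sin φ : ℂ) ^ n) =
      (-(2 * Real.pi * Complex.I) * y) * bb n (fun t => (1 - (t : ℂ)) * G t) y -
        bb n (Tt n G) y := by
    unfold bb
    rw [← intervalIntegral.integral_const_mul, ← intervalIntegral.integral_sub (i1.const_mul _) i2]
    apply intervalIntegral.integral_congr
    intro φ _
    simp only
    ring
  rw [hsplit] at hFTC
  linear_combination hFTC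

theorem hasDerivAt_bb' (n : ℕ) {G : ℝ → ℂ} (hG : Cl G) (y : ℝ) (hy : 0 < y) :
    HasDerivAt (bb n G) ((y : ℂ)⁻¹ * bb n (Tt n G) y) y := by
  refine (hasDerivAt_bb n hG y).congr_deriv ?_
  rw [← bb_step n hG y]
  have : (y : ℂ) ≠ 0 := by exact_mod_cast hy.ne'
  field_simp

theorem bb_lin (n : ℕ) (c : ℂ) {G H : ℝ → ℂ} (hG : Continuous G) (hH : Continuous H) (y : ℝ) :
    bb n (fun t => c * G t + H t) y = c * bb n G y + bb n H y := by
  unfold bb
  rw [← intervalIntegral.integral_const_mul, ← intervalIntegral.integral_add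
    (((cont_integrand n hG y).intervalIntegrable _ _).const_mul _)
    ((cont_integrand n hH y).intervalIntegrable _ _)]
  apply intervalIntegral.integral_congr
  intro φ _
  simp only
  ring

/-- the trivial bound on a subinterval -/
theorem norm_piece_le (n : ℕ) {G : ℝ → ℂ} {M : ℝ} (hM : ∀ t ∈ Icc (-1 : ℝ) 1, ‖G t‖ ≤ M) (y : ℝ)
    {a b : ℝ} (hab : a ≤ b) :
    ‖∫ φ in a..b, e (-(y * (1 - Real.cos φ))) * (G (Real.cos φ) * (Real.sin φ : ℂ) ^ n)‖ ≤
      M * (b - a) := by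
  have h := intervalIntegral.norm_integral_le_of_norm_le_const (a := a) (b := b) (C := M)
    (f := fun φ => e (-(y * (1 - Real.cos φ))) * (G (Real.cos φ) * (Real.sin φ : ℂ) ^ n)) ?_
  · rw [abs_of_nonneg (by linarith)] at h; exact h
  · intro φ _
    have h1 := hM (Real.cos φ) ⟨Real.neg_one_le_cos φ, Real.cos_le_one φ⟩
    have h3 : |Real.sin φ| ^ n ≤ 1 := pow_le_one₀ (abs_nonneg _) (Real.abs_sin_le_one φ)
    have h0 : 0 ≤ M := (norm_nonneg _).trans h1
    rw [norm_mul, norm_mul, norm_pow, norm_e, Complex.norm_real, Real.norm_eq_abs, one_mul]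
    calc ‖G (Real.cos φ)‖ * |Real.sin φ| ^ n ≤ M * 1 := mul_le_mul h1 h3 (by positivity) h0
      _ = M := mul_one M

theorem exists_bd {G : ℝ → ℂ} (hG : Continuous G) : ∃ M, 0 ≤ M ∧ ∀ t ∈ Icc (-1 : ℝ) 1, ‖G t‖ ≤ M := by
  obtain ⟨M, hM⟩ := (isCompact_Icc (a := (-1 : ℝ)) (b := 1)).exists_bound_of_continuousOn
    hG.continuousOn
  exact ⟨M, (norm_nonneg _).trans (hM 0 (by norm_num)), hM⟩

theorem bb_bound_one {G : ℝ → ℂ} (hG : Cl G) :
    ∃ C, ∀ y : ℝ, 1 / 8 ≤ y → ‖bb 1 G y‖ ≤ C / Real.sqrt y ^ 2 := by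
  obtain ⟨M, hM0, hM⟩ := exists_bd hG.deriv.1.continuous
  refine ⟨(‖G 1‖ + M * Real.pi) / (2 * Real.pi), fun y hy => ?_⟩
  have hy0 : 0 < y := by linarith
  have hpi := Real.pi_pos
  have hd : ∀ φ : ℝ, HasDerivAt (fun φ : ℝ => e (-(y * (1 - Real.cos φ))) * G (Real.cos φ))
      (-(2 * Real.pi * Complex.I * y) * (e (-(y * (1 - Real.cos φ))) *
        (G (Real.cos φ) * (Real.sin φ : ℂ) ^ 1)) -
        e (-(y * (1 - Real.cos φ))) * (deriv G (Real.cos φ) * (Real.sin φ : ℂ) ^ 1)) φ := by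
    intro φ
    have hdG : HasDerivAt G (deriv G (Real.cos φ)) (Real.cos φ) :=
      (hG.1.differentiable (by simp)).differentiableAt.hasDerivAt
    have h1 := hdG.scomp φ (Real.hasDerivAt_cos φ)
    have h : HasDerivAt (fun φ : ℝ => e (-(y * (1 - Real.cos φ))) * G (Real.cos φ)) _ φ :=
      (hasDerivAt_phase y φ).mul h1
    refine h.congr_deriv ?_
    rw [Complex.real_smul]
    push_cast
    ring
  have i1 := (cont_integrand 1 hG.1.continuous y).intervalIntegrable (μ := volume) 0 Real.pi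
  have i2 := (cont_integrand 1 hG.deriv.1.continuous y).intervalIntegrable (μ := volume) 0 Real.pi
  have hFTC := intervalIntegral.integral_eq_sub_of_hasDerivAt (a := 0) (b := Real.pi)
    (fun φ _ => hd φ) ((i1.const_mul _).sub i2)
  rw [intervalIntegral.integral_sub (i1.const_mul _) i2, intervalIntegral.integral_const_mul,
    e_neg_cos_pi G hG, mul_zero, Real.cos_zero, sub_self, mul_zero, neg_zero, e_zero, one_mul] at hFTC
  have hb2 : ‖bb 1 (deriv G) y‖ ≤ M * Real.pi := by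
    have := norm_piece_le 1 hM y (a := 0) (b := Real.pi) hpi.le
    simpa [bb] using this
  have e1 : (2 * Real.pi * Complex.I * y) * bb 1 G y = G 1 - bb 1 (deriv G) y := by
    unfold bb
    linear_combination -hFTC
  have e2 : 2 * Real.pi * y * ‖bb 1 G y‖ = ‖G 1 - bb 1 (deriv G) y‖ := by
    rw [← e1, norm_mul, norm_mul, norm_mul, norm_mul, Complex.norm_I, Complex.norm_real,
      Complex.norm_real, Real.norm_of_nonneg hpi.le, Real.norm_of_nonneg hy0.le]
    norm_num
  have e3 : 2 * Real.pi * y * ‖bb 1 G y‖ ≤ ‖G 1‖ + M * Real.pi := by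
    rw [e2]; exact (norm_sub_le _ _).trans (by linarith)
  rw [Real.sq_sqrt hy0.le, div_div, le_div_iff₀ (by positivity)]
  linarith

theorem bb_bound_zero {G : ℝ → ℂ} (hG : Cl G) :
    ∃ C, ∀ y : ℝ, 1 / 8 ≤ y → ‖bb 0 G y‖ ≤ C / Real.sqrt y ^ 1 := by
  obtain ⟨M, hM0, hM⟩ := exists_bd hG.1.continuous
  obtain ⟨M', hM0', hM'⟩ := exists_bd hG.deriv.1.continuous
  refine ⟨M + (10 * M + (M' * Real.pi + 2 * M) * 3), fun y hy => ?_⟩
  have hy0 : 0 < y := by linarith
  have hpi := Real.pi_pos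
  have hpi3 := Real.pi_gt_three
  have hpi4 := Real.pi_lt_four
  obtain ⟨r, hr⟩ : ∃ r, r = Real.sqrt y := ⟨_, rfl⟩
  have hr2 : r ^ 2 = y := by rw [hr]; exact Real.sq_sqrt hy0.le
  have hr0 : 0 < r := by rw [hr]; exact Real.sqrt_pos.2 hy0
  have hr3 : 1 / 3 ≤ r := by
    rw [hr]; apply Real.le_sqrt_of_sq_le; norm_num; linarith
  rw [← hr, pow_one]
  obtain ⟨δ, hδ⟩ : ∃ δ, δ = 1 / (3 * r) := ⟨_, rfl⟩
  have hδ0 : 0 < δ := by rw [hδ]; positivity
  have hδ1 : δ ≤ 1 := by rw [hδ, div_le_one (by positivity)]; linarith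
  obtain ⟨β, hβ⟩ : ∃ β, β = 2 * Real.pi / 3 := ⟨_, rfl⟩
  have hβ1 : δ ≤ β := by rw [hβ]; linarith
  have hβ2 : β ≤ Real.pi := by rw [hβ]; linarith
  have hβcos : Real.cos β = -(1 / 2) := by
    rw [hβ, show 2 * Real.pi / 3 = Real.pi - Real.pi / 3 by ring, Real.cos_pi_sub, Real.cos_pi_div_three]
  have hβsin : 1 / 2 ≤ Real.sin β := by
    rw [hβ, show 2 * Real.pi / 3 = Real.pi - Real.pi / 3 by ring, Real.sin_pi_sub, Real.sin_pi_div_three]
    have : (1 : ℝ) ≤ Real.sqrt 3 := by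
      rw [show (1 : ℝ) = Real.sqrt 1 by simp]; exact Real.sqrt_le_sqrt (by norm_num)
    linarith
  have hint := cont_integrand 0 hG.1.continuous y
  have hsplit : bb 0 G y = (∫ φ in (0 : ℝ)..δ, e (-(y * (1 - Real.cos φ))) *
        (G (Real.cos φ) * (Real.sin φ : ℂ) ^ 0)) +
      (∫ φ in δ..β, e (-(y * (1 - Real.cos φ))) * (G (Real.cos φ) * (Real.sin φ : ℂ) ^ 0)) +
      (∫ φ in β..Real.pi, e (-(y * (1 - Real.cos φ))) *
        (G (Real.cos φ) * (Real.sin φ : ℂ) ^ 0)) := by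
    unfold bb
    rw [intervalIntegral.integral_add_adjacent_intervals (hint.intervalIntegrable _ _)
      (hint.intervalIntegrable _ _), intervalIntegral.integral_add_adjacent_intervals
      (hint.intervalIntegrable _ _) (hint.intervalIntegrable _ _)]
  have h3 : (∫ φ in β..Real.pi, e (-(y * (1 - Real.cos φ))) *
        (G (Real.cos φ) * (Real.sin φ : ℂ) ^ 0)) = 0 := by
    have : (∫ φ in β..Real.pi, e (-(y * (1 - Real.cos φ))) *
        (G (Real.cos φ) * (Real.sin φ : ℂ) ^ 0)) = ∫ φ in β..Real.pi, (0 : ℂ) := by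
      apply intervalIntegral.integral_congr
      intro φ hφ
      rw [Set.uIcc_of_le hβ2] at hφ
      have hc : Real.cos φ ≤ Real.cos β :=
        Real.cos_le_cos_of_nonneg_of_le_pi (by linarith) hφ.2 hφ.1
      simp only
      rw [hG.2 (Real.cos φ) (by linarith)]
      simp
    rw [this]; simp
  have h1 := norm_piece_le 0 hM y hδ0.le
  -- the middle part
  have hspos : ∀ φ ∈ Icc δ β, 0 < Real.sin φ := fun φ hφ =>
    Real.sin_pos_of_pos_of_lt_pi (by linarith [hφ.1]) (by linarith [hφ.2])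
  have hd : ∀ φ ∈ Icc δ β, HasDerivAt (fun φ : ℝ => e (-(y * (1 - Real.cos φ))) *
      (G (Real.cos φ) * (Real.sin φ : ℂ)⁻¹))
      (-(2 * Real.pi * Complex.I * y) * (e (-(y * (1 - Real.cos φ))) *
        (G (Real.cos φ) * (Real.sin φ : ℂ) ^ 0)) -
        e (-(y * (1 - Real.cos φ))) * (deriv G (Real.cos φ) +
          G (Real.cos φ) * (Real.cos φ : ℂ) * ((Real.sin φ : ℂ) ^ 2)⁻¹)) φ := by
    intro φ hφ
    have hs := (hspos φ hφ).ne'
    have hs' : (Real.sin φ : ℂ) ≠ 0 := by exact_mod_cast hs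
    have hdG : HasDerivAt G (deriv G (Real.cos φ)) (Real.cos φ) :=
      (hG.1.differentiable (by simp)).differentiableAt.hasDerivAt
    have h1 := hdG.scomp φ (Real.hasDerivAt_cos φ)
    have h2 : HasDerivAt (fun φ : ℝ => (Real.sin φ : ℂ)) (Real.cos φ : ℂ) φ :=
      (Real.hasDerivAt_sin φ).ofReal_comp
    have h3 := h1.mul (h2.inv hs')
    have h : HasDerivAt (fun φ : ℝ => e (-(y * (1 - Real.cos φ))) *
        (G (Real.cos φ) * (Real.sin φ : ℂ)⁻¹)) _ φ := (hasDerivAt_phase y φ).mul h3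
    refine h.congr_deriv ?_
    rw [Complex.real_smul]
    simp only [Function.comp, Pi.inv_apply, Complex.ofReal_neg]
    generalize e (-(y * (1 - Real.cos φ))) = E
    generalize (Real.sin φ : ℂ) = sn at hs' ⊢
    generalize (Real.cos φ : ℂ) = cn
    generalize G (Real.cos φ) = g
    generalize deriv G (Real.cos φ) = g'
    field_simp
    ring
  have hcE : ContinuousOn (fun φ : ℝ => e (-(y * (1 - Real.cos φ))) * (deriv G (Real.cos φ) +
          G (Real.cos φ) * (Real.cos φ : ℂ) * ((Real.sin φ : ℂ) ^ 2)⁻¹)) (uIcc δ β) := by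
    rw [uIcc_of_le hβ1]
    have c1 : Continuous (fun φ : ℝ => e (-(y * (1 - Real.cos φ)))) :=
      continuous_e.comp (by fun_prop)
    have c2 : Continuous (fun φ : ℝ => deriv G (Real.cos φ)) :=
      hG.deriv.1.continuous.comp Real.continuous_cos
    have c3 : Continuous (fun φ : ℝ => G (Real.cos φ)) := hG.1.continuous.comp Real.continuous_cos
    have c4 : Continuous (fun φ : ℝ => (Real.cos φ : ℂ)) :=
      Complex.continuous_ofReal.comp Real.continuous_cos
    have c5 : ContinuousOn (fun φ : ℝ => ((Real.sin φ : ℂ) ^ 2)⁻¹) (Icc δ β) := by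
      apply ContinuousOn.inv₀
      · exact ((Complex.continuous_ofReal.comp Real.continuous_sin).pow 2).continuousOn
      · intro φ hφ
        have := (hspos φ hφ).ne'
        have hs' : (Real.sin φ : ℂ) ≠ 0 := by exact_mod_cast this
        exact pow_ne_zero 2 hs'
    exact c1.continuousOn.mul (c2.continuousOn.add ((c3.continuousOn.mul c4.continuousOn).mul c5))
  have iE := hcE.intervalIntegrable (μ := volume)
  have iA := (hint.intervalIntegrable (μ := volume) δ β)
  have hFTC := intervalIntegral.integral_eq_sub_of_hasDerivAt (a := δ) (b := β)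
    (fun φ hφ => hd φ (by rwa [uIcc_of_le hβ1] at hφ)) ((iA.const_mul _).sub iE)
  rw [intervalIntegral.integral_sub (iA.const_mul _) iE, intervalIntegral.integral_const_mul,
    hβcos, hG.2 _ le_rfl, zero_mul, mul_zero, zero_sub] at hFTC
  -- bound of the error
  have hcot : ∫ φ in δ..β, (Real.sin φ ^ 2)⁻¹ = -(Real.cos β / Real.sin β) + Real.cos δ / Real.sin δ := by
    have hd2 : ∀ φ ∈ uIcc δ β, HasDerivAt (fun φ : ℝ => -(Real.cos φ / Real.sin φ))
        ((Real.sin φ ^ 2)⁻¹) φ := by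
      intro φ hφ
      rw [uIcc_of_le hβ1] at hφ
      have hs := (hspos φ hφ).ne'
      have h : HasDerivAt (fun φ : ℝ => -(Real.cos φ / Real.sin φ)) _ φ :=
        ((Real.hasDerivAt_cos φ).div (Real.hasDerivAt_sin φ) hs).neg
      refine h.congr_deriv ?_
      have := Real.sin_sq_add_cos_sq φ
      field_simp
      linarith
    rw [intervalIntegral.integral_eq_sub_of_hasDerivAt hd2]
    · ring
    · apply ContinuousOn.intervalIntegrable
      rw [uIcc_of_le hβ1]
      apply ContinuousOn.inv₀ (by fun_prop)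
      intro φ hφ
      exact pow_ne_zero 2 (hspos φ hφ).ne'
  have hsδ : 2 / Real.pi * δ ≤ Real.sin δ := Real.mul_le_sin hδ0.le (by linarith)
  have hsδ0 : 0 < Real.sin δ := hspos δ ⟨le_rfl, hβ1⟩
  have hinvδ : 1 / Real.sin δ ≤ 6 * r := by
    rw [div_le_iff₀ hsδ0]
    have h4 : 2 / Real.pi * δ = 2 / (3 * Real.pi * r) := by rw [hδ]; field_simp
    rw [h4] at hsδ
    have h5 : 1 ≤ 6 * r * (2 / (3 * Real.pi * r)) := by
      have : 6 * r * (2 / (3 * Real.pi * r)) = 4 / Real.pi := by field_simp; norm_num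
      rw [this, one_le_div hpi]; linarith
    have h6 : 6 * r * (2 / (3 * Real.pi * r)) ≤ 6 * r * Real.sin δ :=
      mul_le_mul_of_nonneg_left hsδ (by positivity)
    linarith
  have hEb : ‖∫ φ in δ..β, e (-(y * (1 - Real.cos φ))) * (deriv G (Real.cos φ) +
          G (Real.cos φ) * (Real.cos φ : ℂ) * ((Real.sin φ : ℂ) ^ 2)⁻¹)‖ ≤
      M' * Real.pi + M * (2 + 6 * r) := by
    have hc7 : ContinuousOn (fun φ : ℝ => (Real.sin φ ^ 2)⁻¹) (uIcc δ β) := by
      rw [uIcc_of_le hβ1]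
      apply ContinuousOn.inv₀ (by fun_prop)
      intro φ hφ
      exact pow_ne_zero 2 (hspos φ hφ).ne'
    have i7 := hc7.intervalIntegrable (μ := volume)
    have h8 := intervalIntegral.norm_integral_le_of_norm_le (μ := volume) hβ1
      (f := fun φ : ℝ => e (-(y * (1 - Real.cos φ))) * (deriv G (Real.cos φ) +
          G (Real.cos φ) * (Real.cos φ : ℂ) * ((Real.sin φ : ℂ) ^ 2)⁻¹))
      (g := fun φ : ℝ => M' + M * (Real.sin φ ^ 2)⁻¹) ?_ (intervalIntegrable_const.add (i7.const_mul _))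
    · refine h8.trans ?_
      rw [intervalIntegral.integral_add intervalIntegrable_const (i7.const_mul _),
        intervalIntegral.integral_const_mul, hcot, intervalIntegral.integral_const, smul_eq_mul]
      have h9 : (β - δ) * M' ≤ M' * Real.pi := by nlinarith
      have h10 : -(Real.cos β / Real.sin β) ≤ 2 := by
        rw [hβcos, neg_div, neg_neg, div_le_iff₀ (by linarith)]
        linarith
      have h11 : Real.cos δ / Real.sin δ ≤ 6 * r := by
        refine le_trans ?_ hinvδ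
        exact div_le_div_of_nonneg_right (Real.cos_le_one δ) hsδ0.le
      have h12 : M * (-(Real.cos β / Real.sin β) + Real.cos δ / Real.sin δ) ≤ M * (2 + 6 * r) :=
        mul_le_mul_of_nonneg_left (by linarith) hM0
      linarith
    · apply Filter.Eventually.of_forall
      intro φ hφ
      have hs := hspos φ (Ioc_subset_Icc_self hφ)
      have k1 := hM (Real.cos φ) ⟨Real.neg_one_le_cos φ, Real.cos_le_one φ⟩
      have k2 := hM' (Real.cos φ) ⟨Real.neg_one_le_cos φ, Real.cos_le_one φ⟩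
      rw [norm_mul, norm_e, one_mul]
      refine (norm_add_le _ _).trans (add_le_add k2 ?_)
      rw [norm_mul, norm_mul, norm_inv, norm_pow, Complex.norm_real, Complex.norm_real,
        Real.norm_eq_abs, Real.norm_eq_abs, sq_abs]
      have k3 : |Real.cos φ| ≤ 1 := Real.abs_cos_le_one φ
      apply mul_le_mul_of_nonneg_right _ (by positivity)
      calc ‖G (Real.cos φ)‖ * |Real.cos φ| ≤ M * 1 := mul_le_mul k1 k3 (abs_nonneg _) hM0
        _ = M := mul_one M
  have hKδ : ‖e (-(y * (1 - Real.cos δ))) * (G (Real.cos δ) * (Real.sin δ : ℂ)⁻¹)‖ ≤ M * (6 * r) := by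
    rw [norm_mul, norm_e, one_mul, norm_mul, norm_inv, Complex.norm_real, Real.norm_eq_abs,
      abs_of_pos hsδ0, ← one_div]
    exact mul_le_mul (hM _ ⟨Real.neg_one_le_cos δ, Real.cos_le_one δ⟩) hinvδ (by positivity) hM0
  have h2 : ‖∫ φ in δ..β, e (-(y * (1 - Real.cos φ))) * (G (Real.cos φ) * (Real.sin φ : ℂ) ^ 0)‖ ≤
      (10 * M + (M' * Real.pi + 2 * M) * 3) / r - 0 := by
    obtain ⟨Z, hZ⟩ : ∃ Z, Z = ∫ φ in δ..β, e (-(y * (1 - Real.cos φ))) *
      (G (Real.cos φ) * (Real.sin φ : ℂ) ^ 0) := ⟨_, rfl⟩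
    rw [← hZ] at hFTC ⊢
    have e1 : (2 * Real.pi * Complex.I * y) * Z =
        e (-(y * (1 - Real.cos δ))) * (G (Real.cos δ) * (Real.sin δ : ℂ)⁻¹) -
        ∫ φ in δ..β, e (-(y * (1 - Real.cos φ))) * (deriv G (Real.cos φ) +
          G (Real.cos φ) * (Real.cos φ : ℂ) * ((Real.sin φ : ℂ) ^ 2)⁻¹) := by
      linear_combination -hFTC
    have e2 : 2 * Real.pi * y * ‖Z‖ = ‖(2 * Real.pi * Complex.I * y) * Z‖ := by
      rw [norm_mul, norm_mul, norm_mul, norm_mul, Complex.norm_I, Complex.norm_real,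
        Complex.norm_real, Real.norm_of_nonneg hpi.le, Real.norm_of_nonneg hy0.le]
      norm_num
    have e3 : 2 * Real.pi * y * ‖Z‖ ≤ M * (6 * r) + (M' * Real.pi + M * (2 + 6 * r)) := by
      rw [e2, e1]; exact (norm_sub_le _ _).trans (add_le_add hKδ hEb)
    rw [sub_zero, le_div_iff₀ hr0]
    rw [← hr2] at e3
    have hZ0 := norm_nonneg Z
    have hB : 0 ≤ M' * Real.pi + 2 * M := by positivity
    -- divide by 6 r
    have e4 : 6 * r ^ 2 * ‖Z‖ ≤ 12 * M * r + (M' * Real.pi + 2 * M) := by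
      have : 6 * r ^ 2 * ‖Z‖ ≤ 2 * Real.pi * r ^ 2 * ‖Z‖ := by
        apply mul_le_mul_of_nonneg_right _ hZ0
        nlinarith [sq_nonneg r]
      linarith
    have e5 : (M' * Real.pi + 2 * M) ≤ (M' * Real.pi + 2 * M) * (3 * r) := by nlinarith
    have e6 : 6 * r * (‖Z‖ * r) ≤ 6 * r * (2 * M + (M' * Real.pi + 2 * M) / 2) := by
      have : 6 * r * (‖Z‖ * r) = 6 * r ^ 2 * ‖Z‖ := by ring
      rw [this]
      nlinarith
    have e7 := le_of_mul_le_mul_left e6 (by positivity)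
    nlinarith
  rw [hsplit, h3, add_zero]
  refine (norm_add_le _ _).trans ?_
  rw [add_div]
  apply add_le_add
  · refine h1.trans ?_
    rw [sub_zero, hδ, mul_one_div]
    apply div_le_div_of_nonneg_left hM0 hr0
    linarith
  · linarith

theorem bb_bound : ∀ n : ℕ, ∀ G : ℝ → ℂ, Cl G →
    ∃ C, ∀ y : ℝ, 1 / 8 ≤ y → ‖bb n G y‖ ≤ C / Real.sqrt y ^ (n + 1)
  | 0, G, hG => bb_bound_zero hG
  | 1, G, hG => bb_bound_one hG
  | n + 2, G, hG => by
    have hH : Cl (fun t => (1 + (t : ℂ)) * G t) := hG.mul (contDiff_const.add contDiff_ofReal)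
    obtain ⟨C, hC⟩ := bb_bound n _ (hH.Tt (n := n))
    refine ⟨C / (2 * Real.pi), fun y hy => ?_⟩
    have hy0 : 0 < y := by linarith
    have hpi := Real.pi_pos
    have e0 : bb (n + 2) G y = bb n (fun t => (1 - (t : ℂ)) * ((1 + (t : ℂ)) * G t)) y := by
      unfold bb
      apply intervalIntegral.integral_congr
      intro φ _
      have hs : (Real.sin φ : ℂ) ^ 2 = (1 - (Real.cos φ : ℂ)) * (1 + (Real.cos φ : ℂ)) := by
        have := Real.sin_sq_add_cos_sq φ
        have h3 : (Real.sin φ) ^ 2 = (1 - Real.cos φ) * (1 + Real.cos φ) := by linarith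
        exact_mod_cast h3
      simp only
      rw [pow_add, hs]
      ring
    have e1 := bb_step n hH y
    rw [← e0] at e1
    have e2 : 2 * Real.pi * y * ‖bb (n + 2) G y‖ = ‖bb n (Tt n fun t => (1 + (t : ℂ)) * G t) y‖ := by
      rw [← e1, norm_mul, norm_mul, norm_neg, norm_mul, norm_mul, Complex.norm_I, Complex.norm_real,
        Complex.norm_real, Real.norm_of_nonneg hpi.le, Real.norm_of_nonneg hy0.le]
      norm_num
      ring
    have hsq : Real.sqrt y ^ (n + 2 + 1) = Real.sqrt y ^ (n + 1) * y := by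
      rw [show n + 2 + 1 = (n + 1) + 2 by ring, pow_add, Real.sq_sqrt hy0.le]
    have hsp : 0 < Real.sqrt y ^ (n + 1) := pow_pos (Real.sqrt_pos.2 hy0) _
    have e3 := hC y hy
    rw [← e2, le_div_iff₀ hsp] at e3
    rw [hsq, div_div, le_div_iff₀ (by positivity)]
    calc ‖bb (n + 2) G y‖ * (2 * Real.pi * (Real.sqrt y ^ (n + 1) * y))
        = 2 * Real.pi * y * ‖bb (n + 2) G y‖ * Real.sqrt y ^ (n + 1) := by ring
      _ ≤ C := e3

/-- `y^(-k) y^((n+1)/2) b_G(y)` -/
noncomputable def AK (n k : ℕ) (G : ℝ → ℂ) (y : ℝ) : ℂ :=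
  ((y⁻¹ ^ k * Real.sqrt y ^ (n + 1) : ℝ) : ℂ) * bb n G y

/-- the amplitude of the derivative -/
noncomputable def T2 (n k : ℕ) (G : ℝ → ℂ) (t : ℝ) : ℂ :=
  (((n + 1 : ℕ) : ℂ) / 2 - k) * G t + Tt n G t

theorem Cl.T2 {n k : ℕ} {G : ℝ → ℂ} (hG : Cl G) : Cl (T2 n k G) :=
  (hG.mul contDiff_const).add (hG.Tt (n := n))

theorem hasDerivAt_AK (n k : ℕ) {G : ℝ → ℂ} (hG : Cl G) (y : ℝ) (hy : 0 < y) :
    HasDerivAt (AK n k G) (AK n (k + 1) (T2 n k G) y) y := by
  have hs : Real.sqrt y ≠ 0 := (Real.sqrt_pos.2 hy).ne'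
  have h1 : HasDerivAt (fun y : ℝ => y⁻¹ ^ k) (-(k : ℝ) * y⁻¹ ^ (k + 1)) y := by
    have h := (hasDerivAt_inv hy.ne').pow k
    have h' : HasDerivAt (fun y : ℝ => y⁻¹ ^ k) _ y := h
    refine h'.congr_deriv ?_
    rcases k with _ | k
    · simp
    · simp only [Nat.add_sub_cancel]
      have : -(y ^ 2)⁻¹ = -(y⁻¹ ^ 2) := by rw [inv_pow]
      rw [this]
      push_cast
      ring
  have h2 : HasDerivAt (fun y : ℝ => Real.sqrt y ^ (n + 1))
      (((n + 1 : ℕ) : ℝ) / 2 * (y⁻¹ * Real.sqrt y ^ (n + 1))) y := by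
    have h := (Real.hasDerivAt_sqrt hy.ne').pow (n + 1)
    have h' : HasDerivAt (fun y : ℝ => Real.sqrt y ^ (n + 1)) _ y := h
    refine h'.congr_deriv ?_
    simp only [Nat.add_sub_cancel]
    have e1 : y⁻¹ * Real.sqrt y ^ (n + 1) = Real.sqrt y ^ n * (Real.sqrt y)⁻¹ := by
      have : y = Real.sqrt y ^ 2 := (Real.sq_sqrt hy.le).symm
      nth_rewrite 1 [this]
      field_simp
      ring
    rw [e1]
    field_simp
  have h3 := ((h1.mul h2).ofReal_comp).mul (hasDerivAt_bb' n hG y hy)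
  have h3' : HasDerivAt (AK n k G) _ y := h3
  refine h3'.congr_deriv ?_
  unfold AK
  have e2 : bb n (T2 n k G) y = (((n + 1 : ℕ) : ℂ) / 2 - k) * bb n G y + bb n (Tt n G) y :=
    bb_lin n _ hG.1.continuous (hG.Tt (n := n)).1.continuous y
  rw [e2]
  simp only [Pi.mul_apply]
  push_cast
  ring

theorem contDiffOn_AK (n : ℕ) : ∀ (N : ℕ) (k : ℕ) (G : ℝ → ℂ), Cl G →
    ContDiffOn ℝ N (AK n k G) (Ioi 0)
  | 0, k, G, hG => by
    rw [Nat.cast_zero, contDiffOn_zero]
    intro y hy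
    exact (hasDerivAt_AK n k hG y hy).continuousAt.continuousWithinAt
  | N + 1, k, G, hG => by
    rw [Nat.cast_add, Nat.cast_one, contDiffOn_succ_iff_deriv_of_isOpen isOpen_Ioi]
    refine ⟨fun y hy => (hasDerivAt_AK n k hG y hy).differentiableAt.differentiableWithinAt,
      fun h => absurd h (by simp), ?_⟩
    refine (contDiffOn_AK n N (k + 1) _ (hG.T2 (n := n) (k := k))).congr ?_
    intro y hy
    exact (hasDerivAt_AK n k hG y hy).deriv

theorem iter_AK (n : ℕ) {G : ℝ → ℂ} (hG : Cl G) : ∀ k : ℕ, ∃ H, Cl H ∧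
    ∀ y : ℝ, 0 < y → iteratedDeriv k (AK n 0 G) y = AK n k H y
  | 0 => ⟨G, hG, fun y _ => by rw [iteratedDeriv_zero]⟩
  | k + 1 => by
    obtain ⟨H, hH, hk⟩ := iter_AK n hG k
    refine ⟨T2 n k H, hH.T2, fun y hy => ?_⟩
    rw [iteratedDeriv_succ]
    have h1 : iteratedDeriv k (AK n 0 G) =ᶠ[𝓝 y] AK n k H := by
      filter_upwards [Ioi_mem_nhds hy] with z hz
      exact hk z hz
    rw [h1.deriv_eq]
    exact (hasDerivAt_AK n k hH y hy).deriv

/-- the cut-off in the variable `cos φ` -/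
noncomputable def G0 (t : ℝ) : ℂ := (Real.smoothTransition (t + 1 / 2) : ℂ)

theorem Cl_G0 : Cl G0 := by
  refine ⟨?_, ?_⟩
  · exact Complex.ofRealCLM.contDiff.comp
      (Real.smoothTransition.contDiff.comp (contDiff_id.add contDiff_const))
  · intro t ht
    unfold G0
    rw [Real.smoothTransition.zero_of_nonpos (by linarith)]
    simp

theorem G0_add (t : ℝ) : G0 t + G0 (-t) = 1 := by
  unfold G0
  rw [← Complex.ofReal_add, ← Complex.ofReal_one]
  congr 1
  unfold Real.smoothTransition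
  rw [show 1 - (t + 1 / 2) = -t + 1 / 2 by ring, show 1 - (-t + 1 / 2) = t + 1 / 2 by ring,
    add_comm (expNegInvGlue (-t + 1 / 2)) (expNegInvGlue (t + 1 / 2)), ← add_div, div_self]
  have := Real.smoothTransition.pos_denom (t + 1 / 2)
  rw [show 1 - (t + 1 / 2) = -t + 1 / 2 by ring] at this
  exact this.ne'

theorem jn_eq (n : ℕ) (y : ℝ) : ((jn (n + 2) y : ℝ) : ℂ) =
    e y * bb n G0 y + (starRingEnd ℂ) (e y * bb n G0 y) := by
  have hce : Continuous (fun φ : ℝ => e (y * Real.cos φ)) := continuous_e.comp (by fun_prop)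
  have hce' : Continuous (fun φ : ℝ => e (-(y * Real.cos φ))) := continuous_e.comp (by fun_prop)
  have hG : Continuous (fun φ : ℝ => G0 (Real.cos φ)) := Cl_G0.1.continuous.comp Real.continuous_cos
  have hG' : Continuous (fun φ : ℝ => G0 (-Real.cos φ)) :=
    Cl_G0.1.continuous.comp Real.continuous_cos.neg
  have hs : Continuous (fun φ : ℝ => (Real.sin φ : ℂ) ^ n) :=
    (Complex.continuous_ofReal.comp Real.continuous_sin).pow n
  have e1 : e y * bb n G0 y = ∫ φ in (0 : ℝ)..Real.pi,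
      e (y * Real.cos φ) * (G0 (Real.cos φ) * (Real.sin φ : ℂ) ^ n) := by
    unfold bb
    rw [← intervalIntegral.integral_const_mul]
    apply intervalIntegral.integral_congr
    intro φ _
    simp only
    rw [← mul_assoc, ← e_add]
    congr 2
    ring
  have e2 : (starRingEnd ℂ) (e y * bb n G0 y) = ∫ φ in (0 : ℝ)..Real.pi,
      e (y * Real.cos φ) * (G0 (-Real.cos φ) * (Real.sin φ : ℂ) ^ n) := by
    have hconj : (starRingEnd ℂ) (∫ φ in (0 : ℝ)..Real.pi,
        e (y * Real.cos φ) * (G0 (Real.cos φ) * (Real.sin φ : ℂ) ^ n)) =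
        ∫ φ in (0 : ℝ)..Real.pi, (starRingEnd ℂ)
          (e (y * Real.cos φ) * (G0 (Real.cos φ) * (Real.sin φ : ℂ) ^ n)) := by
      rw [intervalIntegral.integral_of_le Real.pi_pos.le,
        intervalIntegral.integral_of_le Real.pi_pos.le, integral_conj]
    rw [e1, hconj]
    have h := intervalIntegral.integral_comp_sub_left
      (fun φ : ℝ => e (y * Real.cos φ) * (G0 (-Real.cos φ) * (Real.sin φ : ℂ) ^ n)) Real.pi
      (a := 0) (b := Real.pi)
    rw [sub_self, sub_zero] at h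
    rw [← h]
    apply intervalIntegral.integral_congr
    intro φ _
    simp only
    rw [Real.cos_pi_sub, Real.sin_pi_sub, neg_neg, map_mul, map_mul, map_pow, Complex.conj_ofReal,
      conj_e]
    have : (starRingEnd ℂ) (G0 (Real.cos φ)) = G0 (Real.cos φ) := by
      unfold G0; exact Complex.conj_ofReal _
    rw [this, show y * -Real.cos φ = -(y * Real.cos φ) by ring]
  have e3 : e y * bb n G0 y + (starRingEnd ℂ) (e y * bb n G0 y) = ∫ φ in (0 : ℝ)..Real.pi,
      e (y * Real.cos φ) * (Real.sin φ : ℂ) ^ n := by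
    have i3 : IntervalIntegrable (fun φ : ℝ => e (y * Real.cos φ) *
        (G0 (Real.cos φ) * (Real.sin φ : ℂ) ^ n)) volume 0 Real.pi :=
      (hce.mul (hG.mul hs)).intervalIntegrable _ _
    have i4 : IntervalIntegrable (fun φ : ℝ => e (y * Real.cos φ) *
        (G0 (-Real.cos φ) * (Real.sin φ : ℂ) ^ n)) volume 0 Real.pi :=
      (hce.mul (hG'.mul hs)).intervalIntegrable _ _
    rw [e2, e1, ← intervalIntegral.integral_add i3 i4]
    apply intervalIntegral.integral_congr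
    intro φ _
    simp only
    rw [← mul_add, ← add_mul, G0_add, one_mul]
  have e4 : ((e y * bb n G0 y + (starRingEnd ℂ) (e y * bb n G0 y)).re : ℂ) =
      e y * bb n G0 y + (starRingEnd ℂ) (e y * bb n G0 y) := by
    rw [Complex.add_conj]; simp
  rw [← e4, e3]
  congr 1
  have hi : IntervalIntegrable (fun φ : ℝ => e (y * Real.cos φ) * (Real.sin φ : ℂ) ^ n) volume 0
      Real.pi := (hce.mul hs).intervalIntegrable _ _
  have e5 := Complex.reCLM.intervalIntegral_comp_comm hi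
  simp only [Complex.reCLM_apply] at e5
  rw [← e5]
  unfold jn
  apply intervalIntegral.integral_congr
  intro φ _
  simp only [Nat.add_sub_cancel]
  rw [← Complex.ofReal_pow, Complex.re_mul_ofReal]
  unfold e
  rw [Complex.exp_ofReal_mul_I_re]

theorem asy : T_ASY := by
  intro m hm
  obtain ⟨n, rfl⟩ : ∃ n, m = n + 2 := ⟨m - 2, by omega⟩
  refine ⟨AK n 0 G0, ?_, ?_, ?_⟩
  · rw [contDiffOn_infty]
    intro N
    exact contDiffOn_AK n N 0 G0 Cl_G0
  · intro y hy
    unfold bj AK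
    have h1 : y ^ ((((n + 2 : ℕ) : ℝ) - 1) / 2) = Real.sqrt y ^ (n + 1) := by
      rw [Real.sqrt_eq_rpow, ← Real.rpow_natCast, ← Real.rpow_mul hy.le]
      congr 1
      push_cast
      ring
    rw [h1, Complex.ofReal_mul, jn_eq]
    simp only [pow_zero, one_mul, map_mul, Complex.conj_ofReal]
    ring
  · intro k
    obtain ⟨H, hH, hk⟩ := iter_AK n Cl_G0 k
    obtain ⟨C, hC⟩ := bb_bound n H hH
    refine ⟨C, fun y hy => ?_⟩
    have hy0 : 0 < y := by linarith
    have hsp : 0 < Real.sqrt y ^ (n + 1) := pow_pos (Real.sqrt_pos.2 hy0) _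
    rw [hk y hy0]
    unfold AK
    rw [norm_mul, Complex.norm_real, Real.norm_of_nonneg (by positivity)]
    have h2 := hC y hy
    rw [le_div_iff₀ hsp] at h2
    calc y⁻¹ ^ k * Real.sqrt y ^ (n + 1) * ‖bb n H y‖ * y ^ k
        = (y⁻¹ ^ k * y ^ k) * (‖bb n H y‖ * Real.sqrt y ^ (n + 1)) := by ring
      _ = ‖bb n H y‖ * Real.sqrt y ^ (n + 1) := by
          rw [← mul_pow, inv_mul_cancel₀ hy0.ne', one_pow, one_mul]
      _ ≤ C := h2

end Pool.Agent.H76.LS
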