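import Pool.Agent.H83.LS.Targets3
import Pool.Agent.H83.LS.Basic
import Pool.Agent.H58.LS.KAP

/-! # RADL: `L¹` norms of radial kernels (helper76), for `Pool.Agent.H83.LS` -/

set_option autoImplicit false

open MeasureTheory Set Filter Topology Metric
open scoped ENNReal NNReal

namespace Pool.Agent.H76.LS.Q

open Pool.Agent.H83.LS

/-- the modified cut-off -/
noncomputable def chp (D : ℝ) (χ : ℝ → ℂ) (σ : ℝ) : ℂ := χ σ * ((σ ^ D : ℝ) : ℂ)

theorem smooth_pow (D : ℝ) : ContDiffOn ℝ (⊤ : ℕ∞) (fun σ : ℝ => ((σ ^ D : ℝ) : ℂ)) (Ioi 0) := by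
  have h1 : ContDiffOn ℝ (⊤ : ℕ∞) (fun σ : ℝ => σ ^ D) (Ioi 0) := by
    intro σ hσ
    exact (Real.contDiffAt_rpow_const_of_ne (ne_of_gt hσ)).contDiffWithinAt
  exact Complex.ofRealCLM.contDiff.comp_contDiffOn h1

theorem CB_chp (D : ℝ) (M : ℕ) : ∃ A : ℝ, 0 ≤ A ∧ ∀ (χ : ℝ → ℂ) (B : ℝ), CB M B χ →
    CB M (A * B) (chp D χ) := by
  obtain ⟨A, hA0, hA⟩ := Pool.Agent.H58.LS.der_bd isOpen_Ioi (smooth_pow D)
    (isCompact_Icc (a := (1 / 8 : ℝ)) (b := 8)) (fun x hx => by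
      have : (1 / 8 : ℝ) ≤ x := hx.1
      exact lt_of_lt_of_le (by norm_num) this) M
  refine ⟨2 ^ M * A, by positivity, fun χ B hχ => ?_⟩
  obtain ⟨hs, hsupp, hb⟩ := hχ
  have hw := Pool.Agent.H58.LS.prod_win hs hsupp (smooth_pow D)
  have hB0 : 0 ≤ B := (norm_nonneg _).trans (hb 0 (Nat.zero_le _) 0)
  refine ⟨hw.1, ?_, ?_⟩
  · intro σ hσ
    exact hsupp σ (left_ne_zero_of_mul hσ)
  · intro k hk σ
    by_cases hσ : σ ∈ Icc (1 / 8 : ℝ) 8
    · have hσ0 : σ ∈ Ioi (0 : ℝ) := by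
        have : (1 / 8 : ℝ) ≤ σ := hσ.1
        exact lt_of_lt_of_le (by norm_num) this
      have := Pool.Agent.H58.LS.leib isOpen_Ioi hs.contDiffOn (smooth_pow D) (N := M) hσ0
        (fun k hk => hb k hk σ) (fun k hk => hA k hk σ hσ) k hk
      calc ‖iteratedDeriv k (chp D χ) σ‖ ≤ 2 ^ M * (B * A) := this
        _ = 2 ^ M * A * B := by ring
    · have h0 : chp D χ =ᶠ[𝓝 σ] fun _ => 0 := Pool.Agent.H58.LS.win_near hw hσ
      have h1 : iteratedDeriv k (chp D χ) σ = 0 := by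
        rw [h0.iteratedDeriv_eq k]
        simp
      rw [h1, norm_zero]
      positivity

theorem rk_eq (n : ℕ) (c : ℝ)
    (hc : ∀ (g : ℝ → ℂ) (ξ : EE (n + 2)), Measurable g → Integrable (fun x : EE (n + 2) => g ‖x‖) →
      ∫ x : EE (n + 2), e (inner ℝ x ξ) * g ‖x‖ =
        (c : ℂ) * ∫ ρ in Ioi (0 : ℝ), g ρ * ((ρ ^ (n + 2 - 1) * jn (n + 2) (ρ * ‖ξ‖) : ℝ) : ℂ))
    (M : ℕ) (χ : ℝ → ℂ) (B lam t : ℝ) (hχ : CB M B χ) (hlam : 0 < lam) (x : EE (n + 2)) (hx : x ≠ 0) :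
    rk χ lam t x = ((c * (lam ^ (1 + ((n : ℝ) + 1) / 2) * ‖x‖ ^ (-(((n : ℝ) + 1) / 2))) : ℝ) : ℂ) *
      kp (n + 2) (chp (((n : ℝ) + 1) / 2) χ) (lam * t) (lam * ‖x‖) := by
  have hr : 0 < ‖x‖ := norm_pos_iff.2 hx
  obtain ⟨D, hD⟩ : ∃ D, D = ((n : ℝ) + 1) / 2 := ⟨_, rfl⟩
  rw [← hD]
  obtain ⟨g, hg⟩ : ∃ g : ℝ → ℂ, g = fun s => e (t * s) * χ (s / lam) := ⟨_, rfl⟩
  have hgc : Continuous g := by
    rw [hg]
    exact (continuous_e.comp (by fun_prop)).mul (hχ.1.continuous.comp (by fun_prop))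
  have hgi : Integrable (fun x : EE (n + 2) => g ‖x‖) := by
    apply (hgc.comp continuous_norm).integrable_of_hasCompactSupport
    apply HasCompactSupport.intro (isCompact_closedBall (0 : EE (n + 2)) (8 * lam))
    intro y hy
    rw [mem_closedBall, dist_zero_right, not_le] at hy
    have : χ (‖y‖ / lam) = 0 := by
      by_contra hne
      have := (hχ.2.1 _ hne).2
      rw [div_le_iff₀ hlam] at this
      linarith
    simp only [Function.comp, hg, this, mul_zero]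
  have h1 : rk χ lam t x = ∫ ξ : EE (n + 2), e (inner ℝ ξ x) * g ‖ξ‖ := by
    unfold rk MK
    apply integral_congr_ae
    apply Filter.Eventually.of_forall
    intro ξ
    simp only [hg]
    rw [real_inner_comm]
  rw [h1, hc g x hgc.measurable hgi]
  have h2 := integral_comp_mul_left_Ioi (fun s => g s * ((s ^ (n + 2 - 1) *
    jn (n + 2) (s * ‖x‖) : ℝ) : ℂ)) 0 hlam
  rw [mul_zero] at h2
  have h3 : ∫ s in Ioi (0 : ℝ), g s * ((s ^ (n + 2 - 1) * jn (n + 2) (s * ‖x‖) : ℝ) : ℂ) =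
      (lam : ℂ) * ∫ σ in Ioi (0 : ℝ), g (lam * σ) * (((lam * σ) ^ (n + 2 - 1) *
        jn (n + 2) ((lam * σ) * ‖x‖) : ℝ) : ℂ) := by
    rw [h2, Complex.real_smul, ← mul_assoc, ← Complex.ofReal_mul, mul_inv_cancel₀ hlam.ne',
      Complex.ofReal_one, one_mul]
  rw [h3]
  unfold kp
  rw [← integral_const_mul, ← integral_const_mul, ← integral_const_mul]
  apply setIntegral_congr_fun measurableSet_Ioi
  intro σ hσ
  have hσ0 : (0 : ℝ) < σ := hσ
  simp only [hg, chp]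
  have e1 : lam * σ / lam = σ := by field_simp
  have e2 : t * (lam * σ) = lam * t * σ := by ring
  rw [e1, e2]
  have e3 : lam ^ (1 + D) * ‖x‖ ^ (-D) * (σ ^ D * bj (n + 2) (lam * ‖x‖ * σ)) =
      lam * ((lam * σ) ^ (n + 2 - 1) * jn (n + 2) (lam * σ * ‖x‖)) := by
    unfold bj
    have hy : lam * ‖x‖ * σ = lam * σ * ‖x‖ := by ring
    have hD2 : (((n + 2 : ℕ) : ℝ) - 1) / 2 = D := by rw [hD]; push_cast; ring
    have hn : (lam * σ) ^ (n + 2 - 1) = (lam * σ) ^ D * (lam * σ) ^ D := by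
      rw [← Real.rpow_add (by positivity), ← Real.rpow_natCast]
      congr 1
      rw [hD, show n + 2 - 1 = n + 1 by omega]
      push_cast
      ring
    rw [hy, hD2, hn, Real.mul_rpow (by positivity) hr.le, Real.mul_rpow hlam.le hσ0.le,
      Real.rpow_add hlam, Real.rpow_one, Real.rpow_neg hr.le]
    have : ‖x‖ ^ D ≠ 0 := (Real.rpow_pos_of_pos hr D).ne'
    field_simp
  have e4 : ((lam ^ (1 + D) * ‖x‖ ^ (-D) * (σ ^ D * bj (n + 2) (lam * ‖x‖ * σ)) : ℝ) : ℂ) =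
      ((lam * ((lam * σ) ^ (n + 2 - 1) * jn (n + 2) (lam * σ * ‖x‖)) : ℝ) : ℂ) := by rw [e3]
  rw [show n + 2 - 1 = n + 1 by omega] at e4 ⊢
  push_cast at e4 ⊢
  calc _ = (c : ℂ) * e (lam * t * σ) * χ σ * ((lam : ℂ) * (((lam : ℂ) * σ) ^ (n + 1) *
        (jn (n + 2) (lam * σ * ‖x‖) : ℂ))) := by ring
    _ = _ := by rw [← e4]; ring

/-- the scalar integral -/
theorem lint_scalar (lam T : ℝ) (hlam : 0 < lam) :
    ∫⁻ r : ℝ, ENNReal.ofReal (lam * (1 + (lam * r - T) ^ 2)⁻¹) = ENNReal.ofReal Real.pi := by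
  have hi : Integrable (fun r : ℝ => (1 + (r - T) ^ 2)⁻¹) :=
    integrable_inv_one_add_sq.comp_sub_right T
  have hi2 : Integrable (fun r : ℝ => (1 + (lam * r - T) ^ 2)⁻¹) :=
    hi.comp_mul_left' hlam.ne'
  rw [← ofReal_integral_eq_lintegral_ofReal (hi2.const_mul lam)
    (Filter.Eventually.of_forall (fun r => by positivity))]
  congr 1
  rw [integral_const_mul, Measure.integral_comp_mul_left (fun r : ℝ => (1 + (r - T) ^ 2)⁻¹) lam,
    integral_sub_right_eq_self (fun r : ℝ => (1 + r ^ 2)⁻¹) T, integral_univ_inv_one_add_sq,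
    smul_eq_mul, abs_of_pos (by positivity)]
  field_simp

theorem radl (hRF : T_RF) (hKAP : T_KAP) : T_RADL := by
  intro d hd
  obtain ⟨n, rfl⟩ : ∃ n, d = n + 2 := ⟨d - 2, by omega⟩
  obtain ⟨c, hc0, hc1, hc2⟩ := hRF (n + 2) (by omega)
  obtain ⟨M, C, hC⟩ := hKAP (n + 2) (n + 4) (by omega)
  obtain ⟨D, hD⟩ : ∃ D, D = ((n : ℝ) + 1) / 2 := ⟨_, rfl⟩
  have hD0 : 0 < D := by rw [hD]; positivity
  obtain ⟨A, hA0, hA⟩ := CB_chp D M
  have hDd : (((n + 2 : ℕ) : ℝ) - 1) / 2 = D := by rw [hD]; push_cast; ring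
  obtain ⟨I, hI⟩ : ∃ I, I = c * ∫ φ in (0 : ℝ)..Real.pi, Real.sin φ ^ (n + 2 - 2) := ⟨_, rfl⟩
  have hI0 : 0 ≤ I := by
    rw [hI]
    apply mul_nonneg hc0.le
    apply intervalIntegral.integral_nonneg Real.pi_pos.le
    intro φ hφ
    exact pow_nonneg (Real.sin_nonneg_of_nonneg_of_le_pi hφ.1 hφ.2) _
  -- the constant for the kernel bound
  obtain ⟨C1, hC1⟩ : ∃ C1, C1 = c * (2 * (|C| * A)) := ⟨_, rfl⟩
  have hC10 : 0 ≤ C1 := by rw [hC1]; positivity
  -- pointwise bound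
  have hpt : ∀ (χ : ℝ → ℂ) (B lam t : ℝ), CB M B χ → 0 < lam → 0 ≤ t → ∀ x : EE (n + 2), x ≠ 0 →
      ‖rk χ lam t x‖ ≤ C1 * B * (lam ^ (1 + D) * ‖x‖ ^ (-D)) *
        ((1 + |lam * ‖x‖ - lam * t|) ^ (n + 4))⁻¹ := by
    intro χ B lam t hχ hlam ht x hx
    have hr : 0 < ‖x‖ := norm_pos_iff.2 hx
    have hB0 : 0 ≤ B := (norm_nonneg _).trans (hχ.2.2 0 (Nat.zero_le _) 0)
    rw [rk_eq n c hc2 M χ B lam t hχ hlam x hx, norm_mul, Complex.norm_real, ← hD]
    have hk := hC (chp D χ) (A * B) (lam * t) (lam * ‖x‖) (hA χ B hχ) (by positivity)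
    have h1 : ((1 + |lam * t + lam * ‖x‖|) ^ (n + 4))⁻¹ ≤ ((1 + |lam * t - lam * ‖x‖|) ^ (n + 4))⁻¹ := by
      apply inv_anti₀ (by positivity)
      apply pow_le_pow_left₀ (by positivity)
      have : |lam * t - lam * ‖x‖| ≤ |lam * t + lam * ‖x‖| := by
        rw [abs_of_nonneg (by positivity : 0 ≤ lam * t + lam * ‖x‖), abs_le]
        have : 0 ≤ lam * t := by positivity
        have : 0 ≤ lam * ‖x‖ := by positivity
        constructor <;> linarith
      linarith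
    have h2 : |lam * t - lam * ‖x‖| = |lam * ‖x‖ - lam * t| := abs_sub_comm _ _
    rw [h2] at h1 hk
    have h3 : ‖kp (n + 2) (chp D χ) (lam * t) (lam * ‖x‖)‖ ≤
        2 * (|C| * A) * B * ((1 + |lam * ‖x‖ - lam * t|) ^ (n + 4))⁻¹ := by
      refine hk.trans ?_
      have h4 : C * (A * B) ≤ |C| * (A * B) :=
        mul_le_mul_of_nonneg_right (le_abs_self C) (by positivity)
      calc C * (A * B) * (((1 + |lam * ‖x‖ - lam * t|) ^ (n + 4))⁻¹ +
            ((1 + |lam * t + lam * ‖x‖|) ^ (n + 4))⁻¹)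
          ≤ |C| * (A * B) * (((1 + |lam * ‖x‖ - lam * t|) ^ (n + 4))⁻¹ +
            ((1 + |lam * ‖x‖ - lam * t|) ^ (n + 4))⁻¹) := by
              apply mul_le_mul h4 (by linarith) (by positivity) (by positivity)
        _ = _ := by ring
    rw [Real.norm_of_nonneg (by positivity)]
    calc c * (lam ^ (1 + D) * ‖x‖ ^ (-D)) * ‖kp (n + 2) (chp D χ) (lam * t) (lam * ‖x‖)‖
        ≤ c * (lam ^ (1 + D) * ‖x‖ ^ (-D)) *
          (2 * (|C| * A) * B * ((1 + |lam * ‖x‖ - lam * t|) ^ (n + 4))⁻¹) :=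
            mul_le_mul_of_nonneg_left h3 (by positivity)
      _ = _ := by rw [hC1]; ring
  -- the integral over a radial set
  have hmain : ∀ (χ : ℝ → ℂ) (B lam t W : ℝ) (R : Set ℝ), CB M B χ → 0 < lam → 0 ≤ t →
      MeasurableSet R → 0 ≤ W →
      (∀ r ∈ R, 0 < r → (lam * r) ^ D ≤ W * (1 + |lam * r - lam * t|) ^ D) →
      ∫⁻ x in {x : EE (n + 2) | ‖x‖ ∈ R}, ‖rk χ lam t x‖ₑ ≤
        ENNReal.ofReal (I * C1 * Real.pi * B * W) := by
    intro χ B lam t W R hχ hlam ht hR hW0 hW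
    have hB0 : 0 ≤ B := (norm_nonneg _).trans (hχ.2.2 0 (Nat.zero_le _) 0)
    have hRm : MeasurableSet {x : EE (n + 2) | ‖x‖ ∈ R} := measurable_norm hR
    obtain ⟨h, hh⟩ : ∃ h : ℝ → ℝ≥0∞, h = R.indicator (fun r => ENNReal.ofReal
        (C1 * B * (lam ^ (1 + D) * r ^ (-D)) * ((1 + |lam * r - lam * t|) ^ (n + 4))⁻¹)) := ⟨_, rfl⟩
    have hhm : Measurable h := by
      rw [hh]
      apply Measurable.indicator _ hR
      fun_prop
    have h1 : ∫⁻ x in {x : EE (n + 2) | ‖x‖ ∈ R}, ‖rk χ lam t x‖ₑ ≤ ∫⁻ x : EE (n + 2), h ‖x‖ := by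
      rw [← lintegral_indicator hRm]
      apply lintegral_mono_ae
      have hne : ∀ᵐ x : EE (n + 2), x ≠ 0 := by
        rw [ae_iff]
        simp
      filter_upwards [hne] with x hx
      by_cases hxR : ‖x‖ ∈ R
      · rw [indicator_of_mem (by exact hxR), hh, indicator_of_mem hxR, ← ofReal_norm]
        exact ENNReal.ofReal_le_ofReal (hpt χ B lam t hχ hlam ht x hx)
      · rw [indicator_of_notMem (by exact hxR)]
        exact zero_le
    refine h1.trans ?_
    rw [hc1 h hhm, ← hI, show n + 2 - 1 = n + 1 by omega]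
    have h2 : ∫⁻ ρ in Ioi (0 : ℝ), h ρ * ENNReal.ofReal (ρ ^ (n + 1)) ≤
        ENNReal.ofReal (C1 * B * W) *
          ∫⁻ r : ℝ, ENNReal.ofReal (lam * (1 + (lam * r - lam * t) ^ 2)⁻¹) := by
      rw [← lintegral_const_mul' _ _ ENNReal.ofReal_ne_top]
      refine le_trans ?_ (setLIntegral_le_lintegral (Ioi (0 : ℝ)) _)
      apply setLIntegral_mono' measurableSet_Ioi
      intro r hr
      have hr0 : (0 : ℝ) < r := hr
      rw [← ENNReal.ofReal_mul (by positivity)]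
      by_cases hrR : r ∈ R
      · rw [hh, indicator_of_mem hrR, ← ENNReal.ofReal_mul (by positivity)]
        apply ENNReal.ofReal_le_ofReal
        obtain ⟨v, hv⟩ : ∃ v, v = |lam * r - lam * t| := ⟨_, rfl⟩
        have hv0 : 0 ≤ v := by rw [hv]; exact abs_nonneg _
        have hv2 : (lam * r - lam * t) ^ 2 = v ^ 2 := by rw [hv, sq_abs]
        rw [hv2, ← hv]
        have hW' := hW r hrR hr0
        rw [← hv] at hW'
        have hpow : r ^ (n + 1) = r ^ D * r ^ D := by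
          rw [← Real.rpow_add hr0, ← Real.rpow_natCast]
          congr 1
          rw [hD]; push_cast; ring
        have hneg : r ^ (-D) * (r ^ D * r ^ D) = r ^ D := by
          rw [Real.rpow_neg hr0.le]
          have : r ^ D ≠ 0 := (Real.rpow_pos_of_pos hr0 D).ne'
          field_simp
        have hlamD : lam ^ (1 + D) * r ^ D = lam * (lam * r) ^ D := by
          rw [Real.rpow_add hlam, Real.rpow_one, Real.mul_rpow hlam.le hr0.le]; ring
        have hv1 : (1 + v) ^ D * ((1 + v) ^ (n + 4))⁻¹ ≤ (1 + v ^ 2)⁻¹ := by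
          have k1 : (1 + v) ^ D ≤ (1 + v) ^ (n + 2) := by
            rw [← Real.rpow_natCast]
            apply Real.rpow_le_rpow_of_exponent_le (by linarith)
            rw [hD]; push_cast; linarith [Nat.cast_nonneg (α := ℝ) n]
          have k2 : (1 + v) ^ (n + 4) = (1 + v) ^ (n + 2) * (1 + v) ^ 2 := by rw [← pow_add]
          have k3 : 0 < (1 + v) ^ (n + 2) := by positivity
          calc (1 + v) ^ D * ((1 + v) ^ (n + 4))⁻¹ ≤ (1 + v) ^ (n + 2) * ((1 + v) ^ (n + 4))⁻¹ :=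
                mul_le_mul_of_nonneg_right k1 (by positivity)
            _ = ((1 + v) ^ 2)⁻¹ := by rw [k2]; field_simp
            _ ≤ (1 + v ^ 2)⁻¹ := by
                apply inv_anti₀ (by positivity)
                nlinarith
        calc C1 * B * (lam ^ (1 + D) * r ^ (-D)) * ((1 + v) ^ (n + 4))⁻¹ * r ^ (n + 1)
            = C1 * B * (lam ^ (1 + D) * (r ^ (-D) * (r ^ D * r ^ D))) * ((1 + v) ^ (n + 4))⁻¹ := by
              rw [hpow]; ring
          _ = C1 * B * (lam * (lam * r) ^ D) * ((1 + v) ^ (n + 4))⁻¹ := by rw [hneg, hlamD]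
          _ ≤ C1 * B * (lam * (W * (1 + v) ^ D)) * ((1 + v) ^ (n + 4))⁻¹ := by
              apply mul_le_mul_of_nonneg_right _ (by positivity)
              apply mul_le_mul_of_nonneg_left _ (by positivity)
              exact mul_le_mul_of_nonneg_left hW' hlam.le
          _ = C1 * B * W * lam * ((1 + v) ^ D * ((1 + v) ^ (n + 4))⁻¹) := by ring
          _ ≤ C1 * B * W * lam * (1 + v ^ 2)⁻¹ := mul_le_mul_of_nonneg_left hv1 (by positivity)
          _ = _ := by ring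
      · rw [hh, indicator_of_notMem hrR, zero_mul]
        exact zero_le
    rw [lint_scalar lam (lam * t) hlam, ← ENNReal.ofReal_mul (by positivity)] at h2
    calc ENNReal.ofReal I * ∫⁻ ρ in Ioi (0 : ℝ), h ρ * ENNReal.ofReal (ρ ^ (n + 1))
        ≤ ENNReal.ofReal I * ENNReal.ofReal (C1 * B * W * Real.pi) := by gcongr
      _ = _ := by
          rw [← ENNReal.ofReal_mul hI0]
          congr 1
          ring
  refine ⟨M, I * C1 * Real.pi * 2 ^ D, fun χ B lam t hχ hlam ht => ⟨?_, ?_⟩⟩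
  · have hB0 : 0 ≤ B := (norm_nonneg _).trans (hχ.2.2 0 (Nat.zero_le _) 0)
    have hT : 0 ≤ lam * t := by positivity
    have h := hmain χ B lam t ((1 + lam * t) ^ D) univ hχ hlam ht MeasurableSet.univ
      (by positivity) (fun r _ hr => by
        rw [← Real.mul_rpow (by positivity) (by positivity)]
        apply Real.rpow_le_rpow (by positivity) _ hD0.le
        have h1 : lam * r - lam * t ≤ |lam * r - lam * t| := le_abs_self _
        have h2 := abs_nonneg (lam * r - lam * t)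
        nlinarith)
    simp only [mem_univ, Set.ofPred_true, Measure.restrict_univ] at h
    refine h.trans ?_
    apply ENNReal.ofReal_le_ofReal
    rw [hDd]
    have h2D : (1 : ℝ) ≤ 2 ^ D := Real.one_le_rpow (by norm_num) hD0.le
    have h3 : 0 ≤ I * C1 * Real.pi * B * (1 + lam * t) ^ D := by positivity
    calc I * C1 * Real.pi * B * (1 + lam * t) ^ D = 1 * (I * C1 * Real.pi * B * (1 + lam * t) ^ D) :=
          (one_mul _).symm
      _ ≤ 2 ^ D * (I * C1 * Real.pi * B * (1 + lam * t) ^ D) := mul_le_mul_of_nonneg_right h2D h3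
      _ = _ := by ring
  · intro hlam1 ht2
    have hB0 : 0 ≤ B := (norm_nonneg _).trans (hχ.2.2 0 (Nat.zero_le _) 0)
    have h := hmain χ B lam t (2 ^ D) (Ici 4) hχ hlam ht measurableSet_Ici (by positivity)
      (fun r hr hr0 => by
        rw [← Real.mul_rpow (by positivity) (by positivity)]
        apply Real.rpow_le_rpow (by positivity) _ hD0.le
        have h4 : (4 : ℝ) ≤ r := hr
        have h1 : lam * r - lam * t ≤ |lam * r - lam * t| := le_abs_self _
        nlinarith)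
    refine h.trans (le_of_eq ?_)
    congr 1
    ring

end Pool.Agent.H76.LS.Q
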