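import Pool.Agent.H83.LS.Targets3
import Pool.Agent.H83.LS.Basic

/-! # RF: Fourier transform of radial functions (helper76), for `Pool.Agent.H83.LS` -/

set_option autoImplicit false

open MeasureTheory Set Filter Topology Metric
open scoped ENNReal NNReal

namespace Pool.Agent.H76.LS.R

open Pool.Agent.H83.LS

theorem lintegral_fun_norm (n : ℕ) (h : ℝ → ℝ≥0∞) (hh : Measurable h) :
    ∫⁻ x : EE (n + 1), h ‖x‖ =
      ENNReal.ofReal ((n + 1 : ℕ) * (volume : Measure (EE (n + 1))).real (ball 0 1)) *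
        ∫⁻ r in Ioi (0 : ℝ), h r * ENNReal.ofReal (r ^ n) := by
  obtain ⟨μ, hμ⟩ : ∃ μ : Measure (EE (n + 1)), μ = volume := ⟨_, rfl⟩
  have : μ.IsAddHaarMeasure := by rw [hμ]; infer_instance
  have hdim : Module.finrank ℝ (EE (n + 1)) = n + 1 := by simp
  have hdim1 : Module.finrank ℝ (EE (n + 1)) - 1 = n := by simp
  have h1 : ∫⁻ x, h ‖x‖ ∂μ = ∫⁻ x : ({(0)}ᶜ : Set (EE (n + 1))), h (‖x.1‖) ∂(μ.comap (↑)) := by
    rw [lintegral_subtype_comap (measurableSet_singleton _).compl (fun x => h (‖x‖)),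
      restrict_compl_singleton]
  have h2 : ∫⁻ x : ({(0)}ᶜ : Set (EE (n + 1))), h (‖x.1‖) ∂(μ.comap (↑)) =
      ∫⁻ x, h x.2 ∂μ.toSphere.prod (.volumeIoiPow (Module.finrank ℝ (EE (n + 1)) - 1)) := by
    simpa using μ.measurePreserving_homeomorphUnitSphereProd.lintegral_comp_emb
      (Homeomorph.measurableEmbedding _) (h ∘ Subtype.val ∘ Prod.snd)
  have hm : Measurable (fun x : (sphere (0 : EE (n + 1)) 1) × (Ioi (0 : ℝ)) => h x.2) :=
    hh.comp (measurable_subtype_coe.comp measurable_snd)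
  have h3 : ∫⁻ x, h x.2 ∂μ.toSphere.prod (.volumeIoiPow (Module.finrank ℝ (EE (n + 1)) - 1)) =
      (∫⁻ r : Ioi (0 : ℝ), h r ∂(Measure.volumeIoiPow (Module.finrank ℝ (EE (n + 1)) - 1))) *
        μ.toSphere univ := by
    rw [lintegral_prod _ hm.aemeasurable]
    simp only [lintegral_const]
  have h4 : (∫⁻ r : Ioi (0 : ℝ), h r ∂(Measure.volumeIoiPow (Module.finrank ℝ (EE (n + 1)) - 1))) =
      ∫⁻ r in Ioi (0 : ℝ), h r * ENNReal.ofReal (r ^ n) := by
    rw [hdim1]
    unfold Measure.volumeIoiPow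
    have hw := lintegral_withDensity_eq_lintegral_mul
      (Measure.comap (Subtype.val : Ioi (0 : ℝ) → ℝ) volume)
      (f := fun r : Ioi (0 : ℝ) => ENNReal.ofReal (r.1 ^ n)) (by fun_prop)
      (g := fun r : Ioi (0 : ℝ) => h r) (hh.comp measurable_subtype_coe)
    refine hw.trans ?_
    have := lintegral_subtype_comap (μ := (volume : Measure ℝ)) (s := Ioi (0 : ℝ)) measurableSet_Ioi
      (fun r : ℝ => ENNReal.ofReal (r ^ n) * h r)
    refine this.trans ?_
    apply lintegral_congr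
    intro r
    rw [mul_comm]
  have h5 : μ.toSphere univ = ENNReal.ofReal ((n + 1 : ℕ) * μ.real (ball 0 1)) := by
    rw [← ENNReal.ofReal_toReal (measure_ne_top μ.toSphere univ)]
    congr 1
    have := μ.toSphere_real_apply_univ
    rw [hdim] at this
    exact this
  rw [← hμ, h1, h2, h3, h4, h5, mul_comm]

/-- the constant -/
noncomputable def c1 (n : ℕ) : ℝ := (n + 1 : ℕ) * (volume : Measure (EE (n + 1))).real (ball 0 1)

theorem c1_pos (n : ℕ) : 0 < c1 n := by
  unfold c1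
  apply mul_pos (by positivity)
  exact ENNReal.toReal_pos (measure_ball_pos _ _ one_pos).ne' measure_ball_lt_top.ne

/-- the half plane in polar coordinates -/
noncomputable def nu (n : ℕ) : Measure (ℝ × ℝ) :=
  (volume.restrict (Ioi (0 : ℝ) ×ˢ Ioo 0 Real.pi)).withDensity
    (fun w => ENNReal.ofReal (c1 n * (w.1 ^ (n + 1) * Real.sin w.2 ^ n)))

theorem key_lintegral (n : ℕ) (H : ℝ × ℝ → ℝ≥0∞) (hH : Measurable H) :
    ∫⁻ p : EE (n + 1) × ℝ, H (p.2, ‖p.1‖) =
      ∫⁻ w, H (w.1 * Real.cos w.2, w.1 * Real.sin w.2) ∂(nu n) := by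
  have hm1 : Measurable (fun p : EE (n + 1) × ℝ => H (p.2, ‖p.1‖)) :=
    hH.comp (measurable_snd.prodMk (measurable_norm.comp measurable_fst))
  have hm2 : Measurable (fun p : ℝ × ℝ => (if 0 < p.2 then H p * ENNReal.ofReal (p.2 ^ n) else 0)) := by
    apply Measurable.ite (measurableSet_lt measurable_const measurable_snd)
    · fun_prop
    · exact measurable_const
  have h1 : ∫⁻ p : EE (n + 1) × ℝ, H (p.2, ‖p.1‖) =
      ENNReal.ofReal (c1 n) * ∫⁻ p : ℝ × ℝ, (if 0 < p.2 then H p * ENNReal.ofReal (p.2 ^ n) else 0) := by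
    rw [Measure.volume_eq_prod, Measure.volume_eq_prod, lintegral_prod_symm _ hm1.aemeasurable,
      lintegral_prod _ hm2.aemeasurable, ← lintegral_const_mul _ hm2.lintegral_prod_right']
    apply lintegral_congr
    intro z
    have hz : Measurable (fun q : ℝ => H (z, q)) := hH.comp (measurable_const.prodMk measurable_id)
    have := lintegral_fun_norm n (fun q => H (z, q)) hz
    simp only at this ⊢
    rw [this]
    unfold c1
    congr 1
    rw [← lintegral_indicator measurableSet_Ioi]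
    apply lintegral_congr
    intro q
    by_cases hq : 0 < q
    · rw [indicator_of_mem (by exact hq), if_pos hq]
    · rw [indicator_of_notMem (by exact hq), if_neg hq]
  rw [h1, ← lintegral_comp_polarCoord_symm]
  have hm3 : Measurable (fun w : ℝ × ℝ => ENNReal.ofReal (c1 n * (w.1 ^ (n + 1) * Real.sin w.2 ^ n))) := by
    fun_prop
  have hm4 : Measurable (fun w : ℝ × ℝ => H (w.1 * Real.cos w.2, w.1 * Real.sin w.2)) :=
    hH.comp (by fun_prop)
  unfold nu
  rw [lintegral_withDensity_eq_lintegral_mul _ hm3 hm4]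
  have hm5 : Measurable (fun p : ℝ × ℝ => ENNReal.ofReal p.1 • (fun p : ℝ × ℝ =>
      (if 0 < p.2 then H p * ENNReal.ofReal (p.2 ^ n) else 0)) (polarCoord.symm p)) := by
    have hc : Measurable (fun p : ℝ × ℝ => polarCoord.symm p) :=
      continuous_polarCoord_symm.measurable
    exact (ENNReal.measurable_ofReal.comp measurable_fst).mul (hm2.comp hc)
  rw [← lintegral_const_mul _ hm5, ← lintegral_indicator
    (by rw [polarCoord_target]; exact measurableSet_Ioi.prod measurableSet_Ioo), ← lintegral_indicator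
    (measurableSet_Ioi.prod measurableSet_Ioo)]
  apply lintegral_congr
  intro w
  rw [polarCoord_target]
  by_cases hw : w ∈ Ioi (0 : ℝ) ×ˢ Ioo 0 Real.pi
  · have hw1 : (0 : ℝ) < w.1 := hw.1
    have hw2 : 0 < w.2 ∧ w.2 < Real.pi := hw.2
    have hs : 0 < Real.sin w.2 := Real.sin_pos_of_pos_of_lt_pi hw2.1 hw2.2
    have hw' : w ∈ Ioi (0 : ℝ) ×ˢ Ioo (-Real.pi) Real.pi := ⟨hw1, by linarith [hw2.1], hw2.2⟩
    rw [indicator_of_mem hw', indicator_of_mem hw, polarCoord_symm_apply]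
    simp only [Pi.mul_apply, smul_eq_mul]
    rw [if_pos (mul_pos hw1 hs)]
    have e1 : ENNReal.ofReal (c1 n * (w.1 ^ (n + 1) * Real.sin w.2 ^ n)) =
        ENNReal.ofReal (c1 n) * (ENNReal.ofReal w.1 * ENNReal.ofReal ((w.1 * Real.sin w.2) ^ n)) := by
      rw [← ENNReal.ofReal_mul hw1.le, ← ENNReal.ofReal_mul (c1_pos n).le, mul_pow]
      congr 1
      ring
    rw [e1]
    ring
  · rw [indicator_of_notMem hw]
    by_cases hw' : w ∈ Ioi (0 : ℝ) ×ˢ Ioo (-Real.pi) Real.pi
    · rw [indicator_of_mem hw', polarCoord_symm_apply]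
      have hw1 : (0 : ℝ) < w.1 := hw'.1
      have hw2 : -Real.pi < w.2 ∧ w.2 < Real.pi := hw'.2
      have hs : Real.sin w.2 ≤ 0 := by
        apply Real.sin_nonpos_of_nonpos_of_neg_pi_le _ hw2.1.le
        by_contra hcon
        push Not at hcon
        exact hw ⟨hw1, hcon, hw2.2⟩
      simp only
      rw [if_neg (by nlinarith)]
      simp
    · rw [indicator_of_notMem hw']

theorem key_map (n : ℕ) : Measure.map (fun p : EE (n + 1) × ℝ => (p.2, ‖p.1‖)) volume =
    Measure.map (fun w : ℝ × ℝ => (w.1 * Real.cos w.2, w.1 * Real.sin w.2)) (nu n) := by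
  have hm1 : Measurable (fun p : EE (n + 1) × ℝ => (p.2, ‖p.1‖)) :=
    measurable_snd.prodMk (measurable_norm.comp measurable_fst)
  have hm2 : Measurable (fun w : ℝ × ℝ => (w.1 * Real.cos w.2, w.1 * Real.sin w.2)) := by fun_prop
  apply Measure.ext_of_lintegral
  intro H hH
  rw [lintegral_map hH hm1, lintegral_map hH hm2]
  exact key_lintegral n H hH

theorem jn_int (n : ℕ) (y : ℝ) : ∫ φ in Ioo (0 : ℝ) Real.pi, e (y * Real.cos φ) * (Real.sin φ : ℂ) ^ n =
    ((jn (n + 2) y : ℝ) : ℂ) := by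
  have hce : Continuous (fun φ : ℝ => e (y * Real.cos φ)) := continuous_e.comp (by fun_prop)
  have hs : Continuous (fun φ : ℝ => (Real.sin φ : ℂ) ^ n) :=
    (Complex.continuous_ofReal.comp Real.continuous_sin).pow n
  have hi : IntervalIntegrable (fun φ : ℝ => e (y * Real.cos φ) * (Real.sin φ : ℂ) ^ n) volume 0
      Real.pi := (hce.mul hs).intervalIntegrable _ _
  rw [← integral_Ioc_eq_integral_Ioo, ← intervalIntegral.integral_of_le Real.pi_pos.le]
  obtain ⟨I, hI⟩ : ∃ I, I = ∫ φ in (0 : ℝ)..Real.pi, e (y * Real.cos φ) * (Real.sin φ : ℂ) ^ n :=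
    ⟨_, rfl⟩
  have hconj : (starRingEnd ℂ) I = I := by
    have h1 : (starRingEnd ℂ) I = ∫ φ in (0 : ℝ)..Real.pi, (starRingEnd ℂ)
          (e (y * Real.cos φ) * (Real.sin φ : ℂ) ^ n) := by
      rw [hI, intervalIntegral.integral_of_le Real.pi_pos.le,
        intervalIntegral.integral_of_le Real.pi_pos.le, integral_conj]
    have h := intervalIntegral.integral_comp_sub_left
      (fun φ : ℝ => e (y * Real.cos φ) * (Real.sin φ : ℂ) ^ n) Real.pi (a := 0) (b := Real.pi)
    rw [sub_self, sub_zero] at h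
    rw [h1]
    rw [hI, ← h]
    apply intervalIntegral.integral_congr
    intro φ _
    simp only
    rw [Real.cos_pi_sub, Real.sin_pi_sub, map_mul, map_pow, Complex.conj_ofReal, conj_e,
      show y * -Real.cos φ = -(y * Real.cos φ) by ring]
  rw [← hI, ← Complex.conj_eq_iff_re.1 hconj]
  congr 1
  have e5 := Complex.reCLM.intervalIntegral_comp_comm hi
  simp only [Complex.reCLM_apply] at e5
  rw [hI, ← e5]
  unfold jn
  apply intervalIntegral.integral_congr
  intro φ _
  simp only [Nat.add_sub_cancel]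
  rw [← Complex.ofReal_pow, Complex.re_mul_ofReal]
  unfold e
  rw [Complex.exp_ofReal_mul_I_re]

theorem rf (hSPL : T_SPL) : T_RF := by
  intro m hm
  obtain ⟨n, rfl⟩ : ∃ n, m = n + 2 := ⟨m - 2, by omega⟩
  obtain ⟨Φ, hΦ, hlast, hinner⟩ := hSPL (n + 1)
  have hnorm : ∀ p, ‖Φ p‖ = Real.sqrt (p.2 ^ 2 + ‖p.1‖ ^ 2) := by
    rintro ⟨y, z⟩
    have := hinner y y z z
    rw [real_inner_self_eq_norm_sq, real_inner_self_eq_norm_sq] at this
    rw [← Real.sqrt_sq (norm_nonneg (Φ (y, z))), this]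
    congr 1
    ring
  have hpolar : ∀ w : ℝ × ℝ, 0 < w.1 →
      Real.sqrt ((w.1 * Real.cos w.2) ^ 2 + (w.1 * Real.sin w.2) ^ 2) = w.1 := by
    intro w hw
    have : (w.1 * Real.cos w.2) ^ 2 + (w.1 * Real.sin w.2) ^ 2 = w.1 ^ 2 := by
      have := Real.sin_sq_add_cos_sq w.2
      rw [mul_pow, mul_pow, ← mul_add, add_comm, this, mul_one]
    rw [this, Real.sqrt_sq hw.le]
  have hSm : MeasurableSet (Ioi (0 : ℝ) ×ˢ Ioo 0 Real.pi) := measurableSet_Ioi.prod measurableSet_Ioo
  have hm3 : Measurable (fun w : ℝ × ℝ => ENNReal.ofReal (c1 n * (w.1 ^ (n + 1) * Real.sin w.2 ^ n))) := by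
    fun_prop
  have hrestr : (volume : Measure (ℝ × ℝ)).restrict (Ioi (0 : ℝ) ×ˢ Ioo 0 Real.pi) =
      (volume.restrict (Ioi (0 : ℝ))).prod (volume.restrict (Ioo 0 Real.pi)) := by
    rw [Measure.volume_eq_prod, Measure.prod_restrict]
  refine ⟨c1 n, c1_pos n, ?_, ?_⟩
  · intro h hh
    have hH : Measurable (fun p : ℝ × ℝ => h (Real.sqrt (p.1 ^ 2 + p.2 ^ 2))) :=
      hh.comp (by fun_prop)
    have e1 : ∫⁻ x : EE (n + 2), h ‖x‖ = ∫⁻ p : EE (n + 1) × ℝ, h ‖Φ p‖ :=
      (hΦ.lintegral_comp_emb Φ.measurableEmbedding (fun x => h ‖x‖)).symm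
    have e2 : ∫⁻ p : EE (n + 1) × ℝ, h ‖Φ p‖ =
        ∫⁻ p : EE (n + 1) × ℝ, (fun p : ℝ × ℝ => h (Real.sqrt (p.1 ^ 2 + p.2 ^ 2))) (p.2, ‖p.1‖) := by
      apply lintegral_congr
      intro p
      rw [hnorm]
    rw [e1, e2, key_lintegral n _ hH]
    unfold nu
    have hm4 : Measurable (fun w : ℝ × ℝ =>
        h (Real.sqrt ((w.1 * Real.cos w.2) ^ 2 + (w.1 * Real.sin w.2) ^ 2))) := hh.comp (by fun_prop)
    rw [lintegral_withDensity_eq_lintegral_mul _ hm3 hm4]
    have e3 : ∫⁻ w in (Ioi (0 : ℝ) ×ˢ Ioo 0 Real.pi),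
        ((fun w : ℝ × ℝ => ENNReal.ofReal (c1 n * (w.1 ^ (n + 1) * Real.sin w.2 ^ n))) *
          (fun w : ℝ × ℝ => h (Real.sqrt ((w.1 * Real.cos w.2) ^ 2 + (w.1 * Real.sin w.2) ^ 2)))) w =
        ∫⁻ w in (Ioi (0 : ℝ) ×ˢ Ioo 0 Real.pi), (h w.1 * ENNReal.ofReal (w.1 ^ (n + 1))) *
          ENNReal.ofReal (c1 n * Real.sin w.2 ^ n) := by
      apply setLIntegral_congr_fun hSm
      intro w hw
      have hw1 : (0 : ℝ) < w.1 := hw.1
      simp only [Pi.mul_apply]
      rw [hpolar w hw1, show c1 n * (w.1 ^ (n + 1) * Real.sin w.2 ^ n) =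
        w.1 ^ (n + 1) * (c1 n * Real.sin w.2 ^ n) by ring, ENNReal.ofReal_mul (by positivity)]
      ring
    rw [e3, hrestr]
    have hmA : Measurable (fun r : ℝ => h r * ENNReal.ofReal (r ^ (n + 1))) := by fun_prop
    have hmB : Measurable (fun φ : ℝ => ENNReal.ofReal (c1 n * Real.sin φ ^ n)) := by fun_prop
    rw [lintegral_prod_mul hmA.aemeasurable hmB.aemeasurable, mul_comm]
    congr 1
    have hint : Integrable (fun φ : ℝ => c1 n * Real.sin φ ^ n) (volume.restrict (Ioo 0 Real.pi)) := by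
      have : Continuous (fun φ : ℝ => c1 n * Real.sin φ ^ n) := by fun_prop
      exact (this.integrableOn_Icc (a := 0) (b := Real.pi)).mono_set Ioo_subset_Icc_self
    rw [← ofReal_integral_eq_lintegral_ofReal hint]
    · congr 1
      rw [← integral_Ioc_eq_integral_Ioo, ← intervalIntegral.integral_of_le Real.pi_pos.le,
        intervalIntegral.integral_const_mul]
      simp
    · filter_upwards [ae_restrict_mem measurableSet_Ioo] with φ hφ
      have := Real.sin_pos_of_pos_of_lt_pi hφ.1 hφ.2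
      have := c1_pos n
      simp only [Pi.zero_apply]
      positivity
  · intro g ξ hg hgi
    obtain ⟨s, hs⟩ : ∃ s, s = ‖ξ‖ := ⟨_, rfl⟩
    obtain ⟨v, hv⟩ : ∃ v : EE (n + 2), v = s • EuclideanSpace.single (Fin.last (n + 1)) (1 : ℝ) :=
      ⟨_, rfl⟩
    have hvn : ‖v‖ = ‖ξ‖ := by
      rw [hv, norm_smul, EuclideanSpace.norm_single, norm_one, mul_one, hs, norm_norm]
    have hvi : ∀ x : EE (n + 2), inner ℝ x v = s * x (Fin.last (n + 1)) := by
      intro x
      rw [hv, inner_smul_right, EuclideanSpace.inner_single_right]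
      simp
    obtain ⟨A, hA⟩ : ∃ A : EE (n + 2) ≃ₗᵢ[ℝ] EE (n + 2), A v = ξ :=
      ⟨_, Submodule.reflection_sub hvn⟩
    -- step a
    have ea : ∫ x : EE (n + 2), e (inner ℝ x ξ) * g ‖x‖ =
        ∫ x : EE (n + 2), e (s * x (Fin.last (n + 1))) * g ‖x‖ := by
      rw [← (A.measurePreserving).integral_comp A.toHomeomorph.measurableEmbedding
        (fun x => e (inner ℝ x ξ) * g ‖x‖)]
      apply integral_congr_ae
      apply Filter.Eventually.of_forall
      intro x
      simp only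
      rw [← hA, A.inner_map_map, A.norm_map, hvi]
    -- the transferred function
    obtain ⟨G, hG⟩ : ∃ G : ℝ × ℝ → ℂ, G = fun p => e (s * p.1) * g (Real.sqrt (p.1 ^ 2 + p.2 ^ 2)) :=
      ⟨_, rfl⟩
    have hGm : Measurable G := by
      rw [hG]
      exact (measurable_e.comp (by fun_prop)).mul (hg.comp (by fun_prop))
    have hm1 : Measurable (fun p : EE (n + 1) × ℝ => (p.2, ‖p.1‖)) :=
      measurable_snd.prodMk (measurable_norm.comp measurable_fst)
    have hm2 : Measurable (fun w : ℝ × ℝ => (w.1 * Real.cos w.2, w.1 * Real.sin w.2)) := by fun_prop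
    have hfG : ∀ p : EE (n + 1) × ℝ, e (s * (Φ p) (Fin.last (n + 1))) * g ‖Φ p‖ = G (p.2, ‖p.1‖) := by
      intro p
      rw [hG, hnorm, show Φ p = Φ (p.1, p.2) from rfl, hlast]
    have hfi : Integrable (fun x : EE (n + 2) => e (s * x (Fin.last (n + 1))) * g ‖x‖) := by
      apply hgi.bdd_mul (c := 1)
      · apply Continuous.aestronglyMeasurable
        exact continuous_e.comp (by fun_prop)
      · exact Filter.Eventually.of_forall (fun x => (norm_e _).le)
    have hGi : Integrable (fun p : EE (n + 1) × ℝ => G (p.2, ‖p.1‖)) := by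
      have := (hΦ.integrable_comp_emb Φ.measurableEmbedding
        (g := fun x : EE (n + 2) => e (s * x (Fin.last (n + 1))) * g ‖x‖)).2 hfi
      refine this.congr (Filter.Eventually.of_forall (fun p => ?_))
      exact hfG p
    have hGi2 : Integrable (fun w : ℝ × ℝ => G (w.1 * Real.cos w.2, w.1 * Real.sin w.2)) (nu n) := by
      have h1 : Integrable G (Measure.map (fun p : EE (n + 1) × ℝ => (p.2, ‖p.1‖)) volume) :=
        (integrable_map_measure hGm.aestronglyMeasurable hm1.aemeasurable).2 hGi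
      rw [key_map] at h1
      exact (integrable_map_measure hGm.aestronglyMeasurable hm2.aemeasurable).1 h1
    have eb : ∫ x : EE (n + 2), e (s * x (Fin.last (n + 1))) * g ‖x‖ =
        ∫ w, G (w.1 * Real.cos w.2, w.1 * Real.sin w.2) ∂(nu n) := by
      rw [← hΦ.integral_comp Φ.measurableEmbedding]
      have h1 : ∫ p : EE (n + 1) × ℝ, e (s * (Φ p) (Fin.last (n + 1))) * g ‖Φ p‖ =
          ∫ p : EE (n + 1) × ℝ, G (p.2, ‖p.1‖) := by
        apply integral_congr_ae
        exact Filter.Eventually.of_forall hfG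
      rw [h1, ← integral_map hm1.aemeasurable hGm.aestronglyMeasurable, key_map,
        integral_map hm2.aemeasurable hGm.aestronglyMeasurable]
    rw [ea, eb]
    unfold nu at hGi2 ⊢
    have hfin : ∀ᵐ w ∂((volume : Measure (ℝ × ℝ)).restrict (Ioi (0 : ℝ) ×ˢ Ioo 0 Real.pi)),
        ENNReal.ofReal (c1 n * (w.1 ^ (n + 1) * Real.sin w.2 ^ n)) < ⊤ :=
      Filter.Eventually.of_forall (fun w => ENNReal.ofReal_lt_top)
    rw [integral_withDensity_eq_integral_toReal_smul hm3 hfin]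
    rw [integrable_withDensity_iff_integrable_smul' hm3 hfin] at hGi2
    have hcongr : (fun w : ℝ × ℝ => (ENNReal.ofReal (c1 n * (w.1 ^ (n + 1) * Real.sin w.2 ^ n))).toReal •
        G (w.1 * Real.cos w.2, w.1 * Real.sin w.2)) =ᵐ[(volume : Measure (ℝ × ℝ)).restrict
          (Ioi (0 : ℝ) ×ˢ Ioo 0 Real.pi)] (fun w : ℝ × ℝ => ((c1 n : ℂ) * (g w.1 * (w.1 : ℂ) ^ (n + 1))) *
          (e ((w.1 * s) * Real.cos w.2) * (Real.sin w.2 : ℂ) ^ n)) := by
      filter_upwards [ae_restrict_mem hSm] with w hw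
      have hw1 : (0 : ℝ) < w.1 := hw.1
      have hw2 : 0 < w.2 ∧ w.2 < Real.pi := hw.2
      have hsin : 0 < Real.sin w.2 := Real.sin_pos_of_pos_of_lt_pi hw2.1 hw2.2
      have hc := c1_pos n
      rw [ENNReal.toReal_ofReal (by positivity), hG, Complex.real_smul]
      simp only
      rw [hpolar w hw1, show s * (w.1 * Real.cos w.2) = (w.1 * s) * Real.cos w.2 by ring]
      push_cast
      ring
    rw [integral_congr_ae hcongr]
    have hGi3 := hGi2.congr hcongr
    rw [hrestr] at hGi3 ⊢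
    rw [integral_prod _ hGi3, ← integral_const_mul]
    apply integral_congr_ae
    apply Filter.Eventually.of_forall
    intro ρ
    simp only
    rw [integral_const_mul, jn_int n (ρ * s), ← hs]
    rw [show n + 2 - 1 = n + 1 by omega]
    push_cast
    ring

end Pool.Agent.H76.LS.R
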